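import Pool.Agent.Lib.MP_562b47_mp.GD.SolB

/-!
# GD-Cross: `u / ww` is almost continuous across the nodes  (`BG/Cross.lean` is the case `d = 2`)

Proof. `x` is a node with `b ∣ x_i`, `b ∤ x_j` for `j ≠ i`. Equation at `x`: `‖i u x - nbs u x‖ ≤ F`,
`‖u x‖ ≤ η`, and the `2 (d-1)` neighbours `sh x j (±1)`, `j ≠ i`, are nodes (values `≤ η`), so
`‖u (sh x i 1) + u (sh x i (-1))‖ ≤ F + (2 (d-1) + 1) η ≤ F + 2 d η` (split off the summand `i` of `nbs`; `d ≥ 1`
because `i : Fin d`). The points `y± = sh x i (±1)` are not nodes and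
`ww y₊ = - ww y₋` (`ww_cross`), so `u y₊/ww y₊ - u y₋/ww y₋ = (u y₊ + u y₋)/ww y₊`, and `|ww y₊| ≥ pm z^{d N}`.
-/

open Finset

namespace Pool.Agent.Lib.MP_562b47_mp.GD

variable {d : ℕ} {b : ℤ} {z : ℝ}

private theorem cross_aux (a1 a2 : ℂ) (w1 w2 S L : ℝ) (h : w1 = -w2) (hL : 0 < L)
    (hw : L ≤ |w1|) (hs : ‖a1 + a2‖ ≤ S) : ‖a1 / (w1 : ℂ) - a2 / (w2 : ℂ)‖ ≤ S / L := by
  have hw2 : w2 = -w1 := by linarith
  have hne : (w1 : ℂ) ≠ 0 := by
    intro h0
    have h1 : w1 = 0 := by exact_mod_cast h0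
    rw [h1, abs_zero] at hw
    linarith
  have h1 : a1 / (w1 : ℂ) - a2 / (w2 : ℂ) = (a1 + a2) / (w1 : ℂ) := by
    rw [hw2]
    push_cast
    rw [div_neg, sub_neg_eq_add, add_div]
  rw [h1, norm_div, Complex.norm_real, Real.norm_eq_abs]
  exact div_le_div₀ (le_trans (norm_nonneg _) hs) hs hL hw

private theorem cross_nd1 (hb : 3 ≤ b) {n : ℤ} (h : b ∣ n) : ¬ b ∣ n + 1 := by
  intro h1
  have h2 : b ∣ 1 := by
    have := Int.dvd_sub h1 h
    rwa [add_sub_cancel_left] at this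
  have := Int.le_of_dvd one_pos h2
  omega

private theorem cross_sum (u : (Fin d → ℤ) → ℂ) (x : Fin d → ℤ) (i : Fin d) (F η : ℝ)
    (hη : 0 ≤ η) (h : ‖Complex.I * u x - nbs u x‖ ≤ F) (h0 : ‖u x‖ ≤ η)
    (hj : ∀ j, j ≠ i → ∀ t : ℤ, ‖u (sh x j t)‖ ≤ η) :
    ‖u (sh x i 1) + u (sh x i (-1))‖ ≤ F + 2 * d * η := by
  classical
  set R : ℂ := ∑ j ∈ univ.erase i, (u (sh x j 1) + u (sh x j (-1))) with hR
  have h1 : nbs u x = (u (sh x i 1) + u (sh x i (-1))) + R := by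
    unfold nbs
    rw [hR, Finset.add_sum_erase univ (fun j => u (sh x j 1) + u (sh x j (-1))) (mem_univ i)]
  have hd : 1 ≤ d := by have := i.isLt; omega
  have h2 : ‖R‖ ≤ (2 * d - 2) * η := by
    calc ‖R‖ ≤ ∑ j ∈ univ.erase i, (2 * η) := by
          refine norm_sum_le_of_le _ fun j hj' => ?_
          have hne : j ≠ i := (mem_erase.mp hj').1
          have := norm_add_le (u (sh x j 1)) (u (sh x j (-1)))
          have := hj j hne 1
          have := hj j hne (-1)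
          linarith
      _ = (2 * d - 2) * η := by
          rw [sum_const, card_erase_of_mem (mem_univ i), card_univ, Fintype.card_fin,
            nsmul_eq_mul, Nat.cast_sub hd]
          push_cast
          ring
  have h3 : u (sh x i 1) + u (sh x i (-1)) =
      Complex.I * u x - (Complex.I * u x - nbs u x) - R := by
    rw [h1]; ring
  rw [h3]
  have h4 := norm_sub_le (Complex.I * u x - (Complex.I * u x - nbs u x)) R
  have h5 := norm_sub_le (Complex.I * u x) (Complex.I * u x - nbs u x)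
  have h6 : ‖Complex.I * u x‖ = ‖u x‖ := by rw [norm_mul, Complex.norm_I, one_mul]
  nlinarith

theorem cross_ratio (hb : 3 ≤ b) (hz : 0 < z) (hz1 : z < 1) (P : Prof d b z) (pm : ℝ)
    (hpm : 0 < pm)
    (hlow : ∀ N : ℕ, 1 ≤ N → ∀ x : Fin d → ℤ, ¬ node b x → (∀ i, |x i| < b * N) →
      pm * z ^ (d * N) ≤ |ww b z P.p x|)
    (N : ℕ) (hN : 1 ≤ N) (u : (Fin d → ℤ) → ℂ) (F η : ℝ) (hF : 0 ≤ F) (hη : 0 ≤ η)
    (hu : ∀ x, node b x → ‖u x‖ ≤ η)
    (h : ∀ x, node b x → (∀ i, |x i| < b * N) → ‖Complex.I * u x - nbs u x‖ ≤ F)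
    (x : Fin d → ℤ) (i : Fin d) (h1 : b ∣ x i) (h2 : ∀ j, j ≠ i → ¬ b ∣ x j)
    (h3 : |x i + 1| < b * N) (h4 : |x i - 1| < b * N) (h5 : ∀ j, j ≠ i → |x j| < b * N) :
    ‖u (sh x i 1) / (ww b z P.p (sh x i 1) : ℂ) -
      u (sh x i (-1)) / (ww b z P.p (sh x i (-1)) : ℂ)‖ ≤
      (F + 2 * d * η) / (pm * z ^ (d * N)) := by
  have hx : node b x := ⟨i, h1⟩
  have h6 : ∀ j, |x j| < b * N := by
    intro j
    by_cases hj : j = i
    · subst hj
      rw [abs_lt] at h3 h4 ⊢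
      constructor <;> linarith [h3.1, h3.2, h4.1, h4.2]
    · exact h5 j hj
  have he := h x hx h6
  refine cross_aux _ _ _ _ _ _ (ww_cross hb P h1) (by positivity) ?_ ?_
  · refine hlow N hN (sh x i 1) ?_ ?_
    · rintro ⟨j, hj⟩
      by_cases hji : j = i
      · subst hji
        rw [sh_same] at hj
        exact cross_nd1 hb h1 hj
      · rw [sh_ne x hji] at hj
        exact h2 j hji hj
    · intro j
      by_cases hji : j = i
      · subst hji
        rw [sh_same]; exact h3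
      · rw [sh_ne x hji]; exact h5 j hji
  · refine cross_sum u x i F η hη he (hu x hx) fun j hj t => hu _ ⟨i, ?_⟩
    rw [sh_ne x (Ne.symm hj)]
    exact h1

end Pool.Agent.Lib.MP_562b47_mp.GD
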