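import Pool.Agent.Lib.MP_562b47_mp.GD.Mul

/-!
# GD-Energy: the imaginary part of the quadratic form  (`BG/Energy.lean` is the case `d = 2`)

Proof. `∑_{x ∈ T} conj (u x) * nbs u x = ∑_{x ∈ T} ∑_{y ∈ T} conj (u x) (if adj x y then 1 else 0) u y` (`sum_adj` with
`c = 1`) is real: exchange `x` and `y`, `adj` is symmetric (`adj_symm`). So its imaginary part is `0`;
`conj (u x) * (W x * u x) = W x * ‖u x‖²`.
-/

open Finset

namespace Pool.Agent.Lib.MP_562b47_mp.GD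

variable {d : ℕ}

private def shE (i : Fin d) : (Fin d → ℤ) ≃ (Fin d → ℤ) where
  toFun x := sh x i 1
  invFun x := sh x i (-1)
  left_inv x := by
    show sh (sh x i 1) i (-1) = x
    rw [sh_sh, add_neg_cancel, sh_zero]
  right_inv x := by
    show sh (sh x i (-1)) i 1 = x
    rw [sh_sh, neg_add_cancel, sh_zero]

private theorem half (T : Finset (Fin d → ℤ)) (u : (Fin d → ℤ) → ℂ) (hu : ∀ x, x ∉ T → u x = 0)
    (f : (Fin d → ℤ) ≃ (Fin d → ℤ)) :
    ∑ x ∈ T, (starRingEnd ℂ) (u x) * u (f.symm x) =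
      (starRingEnd ℂ) (∑ x ∈ T, (starRingEnd ℂ) (u x) * u (f x)) := by
  rw [map_sum]
  have e1 : ∑ x ∈ T, (starRingEnd ℂ) (u x) * u (f.symm x) =
      ∑' x, (starRingEnd ℂ) (u x) * u (f.symm x) := by
    rw [tsum_eq_sum]
    intro x hx
    rw [hu x hx, map_zero, zero_mul]
  have e2 : ∑ x ∈ T, (starRingEnd ℂ) ((starRingEnd ℂ) (u x) * u (f x)) =
      ∑' x, (starRingEnd ℂ) ((starRingEnd ℂ) (u x) * u (f x)) := by
    rw [tsum_eq_sum]
    intro x hx
    rw [hu x hx, map_zero, zero_mul, map_zero]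
  rw [e1, e2, ← f.tsum_eq]
  refine tsum_congr fun x => ?_
  rw [map_mul, Complex.conj_conj, f.symm_apply_apply, mul_comm]

private theorem im_pair (T : Finset (Fin d → ℤ)) (u : (Fin d → ℤ) → ℂ)
    (hu : ∀ x, x ∉ T → u x = 0) (f : (Fin d → ℤ) ≃ (Fin d → ℤ)) :
    (∑ x ∈ T, ((starRingEnd ℂ) (u x) * u (f x) + (starRingEnd ℂ) (u x) * u (f.symm x))).im
      = 0 := by
  rw [Finset.sum_add_distrib, half T u hu f, Complex.add_im, Complex.conj_im]
  ring

theorem energy (T : Finset (Fin d → ℤ)) (W u : (Fin d → ℤ) → ℂ) (hu : ∀ x, x ∉ T → u x = 0) :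
    (∑ x ∈ T, (starRingEnd ℂ) (u x) * (W x * u x - nbs u x)).im =
      ∑ x ∈ T, (W x).im * ‖u x‖ ^ 2 := by
  have e : ∀ x ∈ T, (starRingEnd ℂ) (u x) * (W x * u x - nbs u x) =
      W x * ((‖u x‖ ^ 2 : ℝ) : ℂ) -
      ∑ i, ((starRingEnd ℂ) (u x) * u ((shE i) x) +
        (starRingEnd ℂ) (u x) * u ((shE i).symm x)) := by
    intro x _
    have h3 : (starRingEnd ℂ) (u x) * u x = ((‖u x‖ ^ 2 : ℝ) : ℂ) := by
      rw [Complex.conj_mul']
      push_cast
      rfl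
    have h4 : nbs u x = ∑ i, (u ((shE i) x) + u ((shE i).symm x)) := rfl
    rw [h4, ← h3, mul_sub, Finset.mul_sum]
    congr 1
    · ring
    · refine Finset.sum_congr rfl fun i _ => ?_
      rw [mul_add]
  rw [Finset.sum_congr rfl e, Finset.sum_sub_distrib, Finset.sum_comm, Complex.sub_im,
    Complex.im_sum, Complex.im_sum]
  have hz : ∑ i : Fin d, (∑ x ∈ T, ((starRingEnd ℂ) (u x) * u ((shE i) x) +
      (starRingEnd ℂ) (u x) * u ((shE i).symm x))).im = 0 :=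
    Finset.sum_eq_zero fun i _ => im_pair T u hu (shE i)
  rw [hz, sub_zero]
  refine Finset.sum_congr rfl fun x _ => ?_
  rw [Complex.im_mul_ofReal]

end Pool.Agent.Lib.MP_562b47_mp.GD
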