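import Pool.Agent.Lib.MP_562b47_mp.GD.SolB

/-!
# GD-Ratio: `u / ww` is almost constant in every cell  (`BG/Ratio.lean` is the case `d = 2`)

`msk u` is `u` with the values at the nodes replaced by `0`.

Proof. Cell of `x`: signs `σ_j = sign x_j`, `i_j = |x_j| / b`; sites `X r := fun j => σ_j (b i_j + r_j)`,
`r ∈ cl d b`. (Same cell for `x, y` non-nodes means `x j / b = y j / b` (floor) for all `j`, which is the same as
equal `σ_j, i_j`.) Put `v r := u (X r)` for `r ∈ cl d b`, `0` outside. For `r ∈ cl d b`, the neighbours of `X r` are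
the `X r'`, `r' ~ r` (`sh (X r) j t = X (sh r j (σ_j t))`, reflected order if `σ_j = -1`), those with `r' ∉ cl d b` are
nodes; so `nbs (msk u) (X r) = nbs v r`, `Ve (X r) = Vp p r`. If `r ≠ 1` then `X r ≠ 1`, and `|X r j| < b N`
because `i_j ≤ N - 1`: the hypothesis gives `‖Vp p r * v r - nbs v r‖ ≤ G`. `CellEst` : with `s = v 1/p 1`,
`‖v r - s p r‖ ≤ CM G`. `ww (X r) = (∏ σ_j) (-z)^{∑ i_j} p r =: e * p r`, so
`‖u (X r)/ww (X r) - s/e‖ = ‖v r - s p r‖/(|e| |p r|) ≤ CM G/|ww (X r)| ≤ CM G/(pm z^{d N})`. Triangle inequality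
for `x` and `y`.
-/

open Finset

namespace Pool.Agent.Lib.MP_562b47_mp.GD

variable {d : ℕ} {b : ℤ} {z : ℝ}

/-- `u` masked at the nodes -/
def msk (b : ℤ) (u : (Fin d → ℤ) → ℂ) (x : Fin d → ℤ) : ℂ := if node b x then 0 else u x

/-- one coordinate of the sites of a cell -/
private def xj (b s i r : ℤ) : ℤ := s * (b * i + r)

private theorem xj_abs {b s i r : ℤ} (hb : 3 ≤ b) (hs : s = 1 ∨ s = -1) (hi : 0 ≤ i) (hr : 0 ≤ r) :
    |xj b s i r| = b * i + r := by
  have h0 : 0 ≤ b * i := mul_nonneg (by omega) hi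
  have h1 : 0 ≤ b * i + r := by omega
  unfold xj
  rcases hs with rfl | rfl
  · rw [one_mul, abs_of_nonneg h1]
  · rw [abs_mul, abs_neg, abs_one, one_mul, abs_of_nonneg h1]

private theorem xj_dm {b s i r : ℤ} (hb : 3 ≤ b) (hs : s = 1 ∨ s = -1) (hi : 0 ≤ i) (hr : 0 ≤ r)
    (hr1 : r < b) : |xj b s i r| / b = i ∧ |xj b s i r| % b = r := by
  rw [xj_abs hb hs hi hr]
  exact (Int.ediv_emod_unique (by omega)).2 ⟨by ring, hr, hr1⟩

private theorem xj_sign {b s i r : ℤ} (hb : 3 ≤ b) (hs : s = 1 ∨ s = -1) (hi : 0 ≤ i)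
    (hr : 1 ≤ r) : (xj b s i r).sign = s := by
  have h0 : 0 ≤ b * i := mul_nonneg (by omega) hi
  have h1 : 0 < b * i + r := by omega
  unfold xj
  rcases hs with rfl | rfl
  · rw [one_mul]
    exact Int.sign_eq_one_of_pos h1
  · rw [neg_one_mul, Int.sign_neg, Int.sign_eq_one_of_pos h1]

private theorem xj_nd {b s i r : ℤ} (hb : 3 ≤ b) (hs : s = 1 ∨ s = -1) (hi : 0 ≤ i)
    (hr : 1 ≤ r) (hr1 : r < b) : ¬ b ∣ xj b s i r := by
  intro h
  have h2 := Int.emod_eq_zero_of_dvd ((dvd_abs b _).2 h)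
  rw [(xj_dm hb hs hi (by omega) hr1).2] at h2
  omega

private theorem xj_dvd {b s i r : ℤ} (hr : r = 0 ∨ r = b) : b ∣ xj b s i r := by
  unfold xj
  rcases hr with h | h
  · rw [h, add_zero]
    exact Dvd.intro (s * i) (by ring)
  · rw [h]
    exact Dvd.intro (s * (i + 1)) (by ring)

/-- representation of a non-multiple of `b` -/
private theorem xj_rep {b n : ℤ} (hb : 3 ≤ b) (hn : ¬ b ∣ n) :
    (n.sign = 1 ∨ n.sign = -1) ∧ 0 ≤ |n| / b ∧ 1 ≤ |n| % b ∧ |n| % b < b ∧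
      xj b n.sign (|n| / b) (|n| % b) = n := by
  have hn0 : n ≠ 0 := by
    rintro rfl
    exact hn (dvd_zero b)
  have h0 : 0 ≤ |n| % b := Int.emod_nonneg _ (by omega)
  have h1 : |n| % b < b := Int.emod_lt_of_pos _ (by omega)
  have h2 : |n| % b ≠ 0 := by
    intro h3
    exact hn ((dvd_abs b n).1 (Int.dvd_of_emod_eq_zero h3))
  refine ⟨?_, Int.ediv_nonneg (abs_nonneg _) (by omega), by omega, h1, ?_⟩
  · rcases lt_or_gt_of_ne hn0 with h | h
    · right
      exact Int.sign_eq_neg_one_of_neg h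
    · left
      exact Int.sign_eq_one_of_pos h
  · unfold xj
    rw [Int.mul_ediv_add_emod]
    exact Int.sign_mul_abs n

/-- same floor, not multiples of `b`: same sign and level -/
private theorem same_cell {b n m : ℤ} (hb : 3 ≤ b) (hn : ¬ b ∣ n) (hm : ¬ b ∣ m)
    (h : n / b = m / b) : n.sign = m.sign ∧ |n| / b = |m| / b := by
  have hb0 : 0 < b := by omega
  have hn0 : n ≠ 0 := by
    rintro rfl
    exact hn (dvd_zero b)
  have hm0 : m ≠ 0 := by
    rintro rfl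
    exact hm (dvd_zero b)
  have key : ∀ k : ℤ, ¬ b ∣ k → (-k) / b = -(k / b) - 1 := by
    intro k hk
    have a0 : 0 ≤ k % b := Int.emod_nonneg _ (by omega)
    have a1 : k % b < b := Int.emod_lt_of_pos _ hb0
    have a2 : k % b ≠ 0 := fun h3 => hk (Int.dvd_of_emod_eq_zero h3)
    have a3 := Int.mul_ediv_add_emod k b
    refine ((Int.ediv_emod_unique hb0 (a := -k) (q := -(k / b) - 1) (r := b - k % b)).2
      ⟨?_, by omega, by omega⟩).1
    have a4 : b - k % b + b * (-(k / b) - 1) = -(b * (k / b) + k % b) := by ring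
    rw [a4, a3]
  rcases lt_or_gt_of_ne hn0 with h1 | h1
  · have h2 : n / b < 0 := Int.ediv_neg_of_neg_of_pos h1 hb0
    have h3 : m < 0 := by
      by_contra hc
      have h4 : 0 ≤ m / b := Int.ediv_nonneg (by omega) hb0.le
      omega
    rw [Int.sign_eq_neg_one_of_neg h1, Int.sign_eq_neg_one_of_neg h3, abs_of_neg h1,
      abs_of_neg h3, key n hn, key m hm, h]
    exact ⟨rfl, rfl⟩
  · have h2 : 0 ≤ n / b := Int.ediv_nonneg h1.le hb0.le
    have h3 : 0 < m := by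
      by_contra hc
      have h4 : m < 0 := by omega
      have h5 : m / b < 0 := Int.ediv_neg_of_neg_of_pos h4 hb0
      omega
    rw [Int.sign_eq_one_of_pos h1, Int.sign_eq_one_of_pos h3, abs_of_pos h1,
      abs_of_pos h3, h]
    exact ⟨rfl, rfl⟩

/-- the sites of a cell -/
private def xs (b : ℤ) (s i r : Fin d → ℤ) : Fin d → ℤ := fun j => xj b (s j) (i j) (r j)

private theorem sh_xs {b : ℤ} {s i : Fin d → ℤ} (r : Fin d → ℤ) (j : Fin d)
    (hs : s j = 1 ∨ s j = -1) (t : ℤ) :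
    sh (xs b s i r) j t = xs b s i (sh r j (s j * t)) := by
  funext k
  by_cases hk : k = j
  · subst hk
    rw [sh_same]
    unfold xs xj
    rw [sh_same]
    rcases hs with h | h <;> rw [h] <;> ring
  · rw [sh_ne _ hk]
    unfold xs
    rw [sh_ne _ hk]

private theorem nbs_xs {b : ℤ} {s i : Fin d → ℤ} (hs : ∀ j, s j = 1 ∨ s j = -1)
    (f : (Fin d → ℤ) → ℂ) (r : Fin d → ℤ) :
    nbs f (xs b s i r) = nbs (fun t => f (xs b s i t)) r := by
  unfold nbs
  refine Finset.sum_congr rfl fun j _ => ?_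
  rw [sh_xs r j (hs j), sh_xs r j (hs j)]
  rcases hs j with h | h
  · rw [h, one_mul, one_mul]
  · rw [h, mul_one, neg_mul_neg, one_mul]
    exact add_comm _ _

private theorem nbs_congr' {f g : (Fin d → ℤ) → ℂ} {r : Fin d → ℤ}
    (h : ∀ t, adj r t → f t = g t) : nbs f r = nbs g r := by
  unfold nbs
  refine Finset.sum_congr rfl fun j _ => ?_
  rw [h _ ⟨j, Or.inl rfl⟩, h _ ⟨j, Or.inr rfl⟩]

/-- a neighbour of a site of the cell is in the cell or on its frame -/
private theorem adj_cl {b : ℤ} {r t : Fin d → ℤ} (hr : r ∈ cl d b) (h : adj r t) :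
    t ∈ cl d b ∨ ∃ j, t j = 0 ∨ t j = b := by
  rw [mem_cl] at hr ⊢
  by_contra hc
  push Not at hc
  obtain ⟨⟨k, hk⟩, h2⟩ := hc
  obtain ⟨j, hj | hj⟩ := h
  · by_cases hkj : k = j
    · subst hkj
      have h3 := h2 k
      have h4 := hr k
      rw [hj, sh_same] at h3 hk
      omega
    · rw [hj, sh_ne _ hkj] at hk
      have h4 := hr k
      omega
  · by_cases hkj : k = j
    · subst hkj
      have h3 := h2 k
      have h4 := hr k
      rw [hj, sh_same] at h3 hk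
      omega
    · rw [hj, sh_ne _ hkj] at hk
      have h4 := hr k
      omega

private theorem cell_one (hb : 3 ≤ b) (hz : 0 < z) (P : Prof d b z) {CM : ℝ} (hC : 0 < CM)
    (hP : CellEst b P.p CM) (pm : ℝ) (hpm : 0 < pm)
    (hlow : ∀ N : ℕ, 1 ≤ N → ∀ x : Fin d → ℤ, ¬ node b x → (∀ i, |x i| < b * N) →
      pm * z ^ (d * N) ≤ |ww b z P.p x|)
    (N : ℕ) (hN : 1 ≤ N) (u : (Fin d → ℤ) → ℂ) (G : ℝ) (hG : 0 ≤ G)
    (h : ∀ x : Fin d → ℤ, ¬ node b x → (∀ i, |x i| < b * N) → x ≠ 1 →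
      ‖(Ve b P.p x : ℂ) * u x - nbs (msk b u) x‖ ≤ G)
    (s i : Fin d → ℤ) (hs : ∀ j, s j = 1 ∨ s j = -1)
    (hi : ∀ j, 0 ≤ i j) (hi' : ∀ j, i j < N) :
    ∃ q : ℂ, ∀ r ∈ cl d b, ‖u (xs b s i r) / (ww b z P.p (xs b s i r) : ℂ) - q‖ ≤
      CM * G / (pm * z ^ (d * N)) := by
  -- facts on the sites
  have hnd : ∀ r ∈ cl d b, ¬ node b (xs b s i r) := by
    intro r hr hn
    rw [mem_cl] at hr
    obtain ⟨j, h1⟩ := hn
    exact xj_nd hb (hs j) (hi j) (hr j).1 (by have := (hr j).2; omega) h1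
  have hrr : ∀ r ∈ cl d b, rr b (xs b s i r) = r := by
    intro r hr
    rw [mem_cl] at hr
    funext j
    unfold rr xs
    have h1 := hr j
    exact (xj_dm hb (hs j) (hi j) (by omega) (by omega)).2
  have hlt : ∀ i r : ℤ, i < N → r ≤ b - 1 → b * i + r < b * N := by
    intro i r h1 h2
    have h3 : i + 1 ≤ (N : ℤ) := h1
    have h4 : b * (i + 1) ≤ b * N := mul_le_mul_of_nonneg_left h3 (by omega)
    have h5 : b * (i + 1) = b * i + b := by ring
    omega
  have hsz : ∀ r ∈ cl d b, ∀ j, |(xs b s i r) j| < b * N := by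
    intro r hr j
    rw [mem_cl] at hr
    have h1 := hr j
    change |xj b (s j) (i j) (r j)| < b * N
    rw [xj_abs hb (hs j) (hi j) (by omega)]
    exact hlt _ _ (hi' j) h1.2
  have hbi : ∀ i r : ℤ, 0 ≤ i → 1 ≤ r → b * i + r = 1 → r = 1 := by
    intro i r h1 h2 h3
    have h4 : 0 ≤ b * i := mul_nonneg (by omega) h1
    omega
  have hone : ∀ r ∈ cl d b, r ≠ 1 → xs b s i r ≠ 1 := by
    intro r hr hr1 he
    rw [mem_cl] at hr
    apply hr1
    funext j
    have e1 : xj b (s j) (i j) (r j) = 1 := congrFun he j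
    have h1 := hr j
    have f1 := xj_abs (r := r j) hb (hs j) (hi j) (by omega)
    rw [e1, abs_one] at f1
    exact hbi _ _ (hi j) h1.1 f1.symm
  -- the values in the cell
  obtain ⟨v, hv⟩ : ∃ v : (Fin d → ℤ) → ℂ, v = fun r => if r ∈ cl d b then u (xs b s i r) else 0 :=
    ⟨_, rfl⟩
  have hv0 : ∀ r, r ∉ cl d b → v r = 0 := by
    intro r hr
    rw [hv]
    exact if_neg hr
  have hv1 : ∀ r ∈ cl d b, v r = u (xs b s i r) := by
    intro r hr
    rw [hv]
    exact if_pos hr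
  have hmv : ∀ r ∈ cl d b, nbs (msk b u) (xs b s i r) = nbs v r := by
    intro r hr
    rw [nbs_xs hs]
    apply nbs_congr'
    intro t ht
    rcases adj_cl hr ht with h1 | ⟨j, h1⟩
    · rw [hv1 t h1]
      exact if_neg (hnd t h1)
    · have h2 : t ∉ cl d b := by
        rw [mem_cl]
        intro h3
        have h4 := h3 j
        omega
      rw [hv0 t h2]
      exact if_pos ⟨j, xj_dvd h1⟩
  have hVe : ∀ r ∈ cl d b, Ve b P.p (xs b s i r) = Vp P.p r := by
    intro r hr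
    unfold Ve
    rw [hrr r hr]
  have hest := hP v G hG hv0 (by
    intro r hr hr1
    rw [← hmv r hr, hv1 r hr, ← hVe r hr]
    exact h _ (hnd r hr) (hsz r hr) (hone r hr hr1))
  -- the exact solution
  obtain ⟨e, he⟩ : ∃ e : ℝ, e = (∏ j, ((s j : ℤ) : ℝ)) * (-z) ^ (∑ j, (i j).toNat) :=
    ⟨_, rfl⟩
  have he0 : e ≠ 0 := by
    rw [he]
    refine mul_ne_zero (Finset.prod_ne_zero_iff.2 fun j _ => ?_)
      (pow_ne_zero _ (neg_ne_zero.2 hz.ne'))
    rcases hs j with h1 | h1 <;> rw [h1] <;> norm_num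
  have hww : ∀ r ∈ cl d b, ww b z P.p (xs b s i r) = e * P.p r := by
    intro r hr
    have hm := hr
    rw [mem_cl] at hm
    unfold ww
    rw [hrr r hr, he]
    have h1 : ∏ j, (((xs b s i r j).sign : ℤ) : ℝ) = ∏ j, ((s j : ℤ) : ℝ) := by
      refine Finset.prod_congr rfl fun j _ => ?_
      have h2 : (xs b s i r j).sign = s j := xj_sign hb (hs j) (hi j) (hm j).1
      rw [h2]
    have h3 : lv b (xs b s i r) = ∑ j, (i j).toNat := by
      unfold lv
      refine Finset.sum_congr rfl fun j _ => ?_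
      have h4 := hm j
      have h2 : |xs b s i r j| / b = i j := (xj_dm hb (hs j) (hi j) (by omega) (by omega)).1
      rw [h2]
    rw [h1, h3]
  refine ⟨v 1 / (P.p 1 : ℂ) / (e : ℂ), ?_⟩
  intro r hr
  have hpr : (P.p r : ℂ) ≠ 0 := by
    exact_mod_cast P.ne r hr
  have hec : (e : ℂ) ≠ 0 := by
    exact_mod_cast he0
  have hW : 0 < pm * z ^ (d * N) := mul_pos hpm (pow_pos hz _)
  have hl := hlow N hN _ (hnd r hr) (hsz r hr)
  have hid : u (xs b s i r) / (ww b z P.p (xs b s i r) : ℂ)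
      - v 1 / (P.p 1 : ℂ) / (e : ℂ)
      = (v r - v 1 / (P.p 1 : ℂ) * (P.p r : ℂ)) /
        (ww b z P.p (xs b s i r) : ℂ) := by
    rw [hww r hr, hv1 r hr]
    push_cast
    rw [sub_div (u (xs b s i r)), mul_div_mul_right _ _ hpr]
  rw [hid, norm_div, Complex.norm_real, Real.norm_eq_abs]
  have h3 : 0 < |ww b z P.p (xs b s i r)| := lt_of_lt_of_le hW hl
  rw [div_le_div_iff₀ h3 hW]
  exact mul_le_mul (hest r hr) hl hW.le (by positivity)

theorem cell_ratio (hb : 3 ≤ b) (hz : 0 < z) (hz1 : z < 1) (P : Prof d b z) {CM : ℝ}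
    (hC : 0 < CM) (hP : CellEst b P.p CM) (pm : ℝ) (hpm : 0 < pm)
    (hlow : ∀ N : ℕ, 1 ≤ N → ∀ x : Fin d → ℤ, ¬ node b x → (∀ i, |x i| < b * N) →
      pm * z ^ (d * N) ≤ |ww b z P.p x|)
    (N : ℕ) (hN : 1 ≤ N) (u : (Fin d → ℤ) → ℂ) (G : ℝ) (hG : 0 ≤ G)
    (h : ∀ x : Fin d → ℤ, ¬ node b x → (∀ i, |x i| < b * N) → x ≠ 1 →
      ‖(Ve b P.p x : ℂ) * u x - nbs (msk b u) x‖ ≤ G)
    (x y : Fin d → ℤ) (hx : ¬ node b x) (hy : ¬ node b y) (h1 : ∀ i, |x i| < b * N)
    (e1 : ∀ i, x i / b = y i / b) :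
    ‖u x / (ww b z P.p x : ℂ) - u y / (ww b z P.p y : ℂ)‖ ≤
      2 * CM * G / (pm * z ^ (d * N)) := by
  have hx' := hx
  have hy' := hy
  unfold node at hx' hy'
  push Not at hx' hy'
  have hX := fun j => xj_rep hb (hx' j)
  have hY := fun j => xj_rep hb (hy' j)
  have hS := fun j => same_cell hb (hx' j) (hy' j) (e1 j)
  have hiN : ∀ n : ℤ, |n| < b * N → |n| / b < N := by
    intro n hn
    apply Int.ediv_lt_of_lt_mul (by omega)
    rw [mul_comm]
    exact hn
  obtain ⟨q, hq⟩ := cell_one hb hz P hC hP pm hpm hlow N hN u G hG h (fun j => (x j).sign)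
    (fun j => |x j| / b) (fun j => (hX j).1) (fun j => (hX j).2.1) (fun j => hiN _ (h1 j))
  have hqx := hq (fun j => |x j| % b) (by
    rw [mem_cl]
    intro j
    have h2 := (hX j).2.2.1
    have h3 := (hX j).2.2.2.1
    omega)
  have hqy := hq (fun j => |y j| % b) (by
    rw [mem_cl]
    intro j
    have h2 := (hY j).2.2.1
    have h3 := (hY j).2.2.2.1
    omega)
  have ex : xs b (fun j => (x j).sign) (fun j => |x j| / b) (fun j => |x j| % b) = x :=
    funext fun j => (hX j).2.2.2.2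
  have ey : xs b (fun j => (x j).sign) (fun j => |x j| / b) (fun j => |y j| % b) = y := by
    funext j
    have h2 : xj b (x j).sign (|x j| / b) (|y j| % b) = y j := by
      rw [(hS j).1, (hS j).2]
      exact (hY j).2.2.2.2
    exact h2
  rw [ex] at hqx
  rw [ey] at hqy
  have h3 : u x / (ww b z P.p x : ℂ) - u y / (ww b z P.p y : ℂ) =
      (u x / (ww b z P.p x : ℂ) - q) - (u y / (ww b z P.p y : ℂ) - q) := by ring
  rw [h3]
  refine (norm_sub_le _ _).trans ?_
  have h4 : 2 * CM * G / (pm * z ^ (d * N)) =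
      CM * G / (pm * z ^ (d * N)) + CM * G / (pm * z ^ (d * N)) := by ring
  rw [h4]
  exact add_le_add hqx hqy

end Pool.Agent.Lib.MP_562b47_mp.GD
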