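import Pool.Agent.Lib.MP_562b47_mp.BG.Walk
import Pool.Agent.Lib.MP_562b47_mp.GD.Ratio
import Pool.Agent.Lib.MP_562b47_mp.GD.Cross
import Pool.Agent.Lib.MP_562b47_mp.GD.Energy

/-!
# GD-APri: the a priori estimate with absorbing nodes  (`BG/APri.lean` is the case `d = 2`)

`Wi x = i` at the nodes, `Ve x` elsewhere. `m = b N`, `D = card (inn d m) ≤ (2 b N)^d` (`card_inn_le`).

Proof. Let `X = sup ‖u‖` (finite support).
(1) `energy` with `T = inn d m`: the left side is at most `∑ ‖u‖ F ≤ D X F`; the right side is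
`∑_{x ∈ inn d m, node} ‖u x‖²`. So `‖u x‖ ≤ η := √(D X F)` at every node (`u = 0` outside `inn d m`).
(2) For a non-node `x ≠ 1` with `|x_j| < b N`: `nbs u x = nbs (msk u) x + (at most 2 d node values)`, so
`‖Ve x u x - nbs (msk u) x‖ ≤ F + 2 d η =: G`, and `cell_ratio` applies.
(3) `cross_ratio` applies (nodes are `≠ 1`, they belong to `inn d m`).
(4) Put `ε₀ := (2 CM + 1) (F + 2 d η) / (pm z^{d N})`, a bound for the right sides in (2), (3). `q x = u x / ww x`,
`q 1 = 0` (`u 1 = 0` because `1 ∉ inn d m`). Change the coordinates one by one from `1` to `x` (induction over the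
set `s` of changed coordinates, point `fun i => if i ∈ s then x i else 1`, never a node): by `BG.walk` on the line in
direction `j` (all other coordinates fixed and not divisible by `b`)
`‖q (point with x_j) - q (point with 1)‖ ≤ 2 m ε₀`. (In `BG.walk`, `h1` is `cell_ratio`: `n, n+1` both not divisible
by `b` gives `n / b = (n+1) / b`.) So `‖u x‖ ≤ 2 d m ε₀ pM` at non-nodes, `≤ η` at nodes:
`X ≤ M₁ (F + η)`, `M₁ = C N z^{-d N}` (≥ 1), with `C` depending on `b, d, CM, pm, pM` only.
(5) `M₁ η = M₁ √(D X F) ≤ X/2 + M₁² D F/2`, so `X ≤ (2 M₁ + M₁² D) F ≤ C' N^{d+2} z^{-2 d N} F`.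
-/

open Finset

namespace Pool.Agent.Lib.MP_562b47_mp.GD

variable {d : ℕ} {b : ℤ} {z : ℝ}

/-- the effective diagonal with absorbing nodes -/
noncomputable def Wi (b : ℤ) (p : (Fin d → ℤ) → ℝ) (x : Fin d → ℤ) : ℂ :=
  if node b x then Complex.I else (Ve b p x : ℂ)

private theorem APri_div {b n : ℤ} (hb : 0 < b) (h : ¬ b ∣ n + 1) : (n + 1) / b = n / b := by
  have h1 : n % b + 1 < b := by
    have h2 := Int.emod_lt_of_pos n hb
    rcases lt_or_eq_of_le (Int.add_one_le_iff.2 h2) with h3 | h3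
    · exact h3
    · exfalso
      apply h
      refine ⟨n / b + 1, ?_⟩
      have h4 := Int.emod_add_mul_ediv n b
      linarith
  have h2 := Int.emod_nonneg n hb.ne'
  have h4 := Int.emod_add_mul_ediv n b
  have h5 : n % b + 1 + b * (n / b) = n + 1 ∧ 0 ≤ n % b + 1 ∧ n % b + 1 < b :=
    ⟨by linarith, by linarith, h1⟩
  exact ((Int.ediv_emod_unique hb).2 h5).1

private theorem APri_not_dvd {b : ℤ} (hb : 3 ≤ b) : ¬ b ∣ 1 := by
  intro h
  have := Int.le_of_dvd one_pos h
  omega

/-- the node values -/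
private theorem APri_node {b m : ℤ} {p : (Fin d → ℤ) → ℝ} (u : (Fin d → ℤ) → ℂ) (F X : ℝ)
    (hF : 0 ≤ F) (hm : 1 ≤ m) (hX : ∀ x, ‖u x‖ ≤ X) (h0 : ∀ x, x ∉ inn d m → u x = 0)
    (h : ∀ x ∈ inn d m, ‖Wi b p x * u x - nbs u x‖ ≤ F) (x : Fin d → ℤ) (hx : node b x) :
    ‖u x‖ ≤ Real.sqrt ((2 * m) ^ d * X * F) := by
  have hX0 : 0 ≤ X := (norm_nonneg _).trans (hX 0)
  by_cases hxm : x ∈ inn d m
  · apply Real.le_sqrt_of_sq_le
    have h1 := energy (inn d m) (Wi b p) u h0
    have h2 : (∑ x ∈ inn d m, (starRingEnd ℂ) (u x) * (Wi b p x * u x - nbs u x)).im ≤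
        (2 * m) ^ d * X * F := by
      refine (Complex.im_le_norm _).trans ((norm_sum_le _ _).trans ?_)
      have h3 : ∀ y ∈ inn d m,
          ‖(starRingEnd ℂ) (u y) * (Wi b p y * u y - nbs u y)‖ ≤ X * F := by
        intro y hy
        rw [norm_mul, RCLike.norm_conj]
        exact mul_le_mul (hX y) (h y hy) (norm_nonneg _) hX0
      refine (Finset.sum_le_card_nsmul _ _ _ h3).trans ?_
      rw [nsmul_eq_mul, mul_assoc]
      exact mul_le_mul_of_nonneg_right (card_inn_le (by omega)) (mul_nonneg hX0 hF)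
    have h3 : ∀ y ∈ inn d m, 0 ≤ (Wi b p y).im * ‖u y‖ ^ 2 := by
      intro y _
      refine mul_nonneg ?_ (sq_nonneg _)
      unfold Wi
      split_ifs
      · simp
      · simp
    have h4 := Finset.single_le_sum h3 hxm
    have h5 : (Wi b p x).im = 1 := by
      unfold Wi
      rw [if_pos hx]
      simp
    rw [h5, one_mul] at h4
    linarith
  · rw [h0 x hxm, norm_zero]
    exact Real.sqrt_nonneg _

theorem apri (hb : 3 ≤ b) (hz : 0 < z) (hz1 : z < 1) (P : Prof d b z) {CM : ℝ} (hC : 0 < CM)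
    (hP : CellEst b P.p CM) :
    ∃ C : ℝ, 1 ≤ C ∧ ∀ N : ℕ, 1 ≤ N → ∀ (u : (Fin d → ℤ) → ℂ) (F : ℝ), 0 ≤ F →
      (∀ x, x ∉ inn d (b * N) → u x = 0) →
      (∀ x ∈ inn d (b * N), ‖Wi b P.p x * u x - nbs u x‖ ≤ F) →
      ∀ x, ‖u x‖ ≤ C * (N : ℝ) ^ (d + 2) * (z⁻¹) ^ (2 * d * N) * F := by
  classical
  obtain ⟨pm, hpm, hlow⟩ := ww_lower hb hz hz1 P
  obtain ⟨pM, hpM, hup, -⟩ := ww_upper hb hz hz1 P
  have hbr : (3 : ℝ) ≤ b := by exact_mod_cast hb
  have hd0 : (0 : ℝ) ≤ d := Nat.cast_nonneg d
  set K : ℝ := 2 * d * b * pM * (2 * CM + 1) / pm with hK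
  have hK0 : 0 ≤ K := by
    rw [hK]
    have : (0 : ℝ) < b := by linarith
    positivity
  have hb2 : (1 : ℝ) ≤ (2 * (b : ℝ)) ^ d := one_le_pow₀ (by linarith)
  have hdK : 0 ≤ 2 * d * K := by positivity
  refine ⟨3 * (2 * (b : ℝ)) ^ d * (2 * d * K + 1) ^ 2, ?_, ?_⟩
  · have h1 : (1 : ℝ) ≤ (2 * d * K + 1) ^ 2 := by nlinarith
    have h2 : (1 : ℝ) ≤ 3 * (2 * (b : ℝ)) ^ d := by nlinarith
    calc (1 : ℝ) = 1 * 1 := by ring
      _ ≤ 3 * (2 * (b : ℝ)) ^ d * (2 * d * K + 1) ^ 2 :=
        mul_le_mul h2 h1 zero_le_one (by positivity)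
  intro N hN u F hF h0 h
  have hNr : (1 : ℝ) ≤ N := by exact_mod_cast hN
  have hNz : (1 : ℤ) ≤ N := by exact_mod_cast hN
  have hzi : 1 ≤ z⁻¹ := (one_le_inv₀ hz).2 hz1.le
  set m : ℤ := b * N with hm
  have hm3 : 3 ≤ m := by nlinarith
  have hmr : (m : ℝ) = b * N := by rw [hm]; push_cast; ring
  have hone : |(1 : ℤ)| < m := by rw [abs_one]; omega
  -- dimension 0
  rcases Nat.eq_zero_or_pos d with hd | hd
  · subst hd
    intro x
    have hx : x ∉ inn 0 m := by
      rw [mem_inn]
      rintro ⟨h1, -⟩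
      exact h1 (Subsingleton.elim _ _)
    rw [h0 x hx, norm_zero]
    positivity
  have hd1 : (1 : ℝ) ≤ d := by exact_mod_cast hd
  -- the maximum
  have hne : (inn d m).Nonempty := by
    refine ⟨0, mem_inn.2 ⟨?_, fun i => ?_⟩⟩
    · intro h1
      have := congrFun h1 ⟨0, hd⟩
      simp at this
    · simp only [Pi.zero_apply, abs_zero]
      omega
  obtain ⟨xs, hxs, hmax⟩ := Finset.exists_max_image (inn d m) (fun x => ‖u x‖) hne
  set X : ℝ := ‖u xs‖ with hXd
  have hX0 : 0 ≤ X := norm_nonneg _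
  have hX : ∀ x, ‖u x‖ ≤ X := by
    intro x
    by_cases hx : x ∈ inn d m
    · exact hmax x hx
    · rw [h0 x hx, norm_zero]
      exact hX0
  set D : ℝ := (2 * m) ^ d with hD
  have hD0 : 0 ≤ D := by
    have : (3 : ℝ) ≤ m := by exact_mod_cast hm3
    positivity
  set η : ℝ := Real.sqrt (D * X * F) with hη
  have hη0 : 0 ≤ η := Real.sqrt_nonneg _
  have hη2 : η ^ 2 = D * X * F := Real.sq_sqrt (by positivity)
  have hnode : ∀ x, node b x → ‖u x‖ ≤ η := fun x hx =>
    APri_node u F X hF (by omega) hX h0 h x hx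
  have hzN : 0 < z ^ (d * N) := pow_pos hz _
  have hn11 : ¬ node b (1 : Fin d → ℤ) := by
    rintro ⟨i, h1⟩
    exact APri_not_dvd hb h1
  -- equations
  have hG : ∀ x : Fin d → ℤ, ¬ node b x → (∀ i, |x i| < b * N) → x ≠ 1 →
      ‖(Ve b P.p x : ℂ) * u x - nbs (msk b u) x‖ ≤ F + 2 * d * η := by
    intro x hx h1 h3
    have h4 := h x (mem_inn.2 ⟨h3, h1⟩)
    have h5 : Wi b P.p x = (Ve b P.p x : ℂ) := by
      unfold Wi
      rw [if_neg hx]
    rw [h5] at h4
    have h6 : ∀ y, ‖u y - msk b u y‖ ≤ η := by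
      intro y
      unfold msk
      split_ifs with hy
      · rw [sub_zero]
        exact hnode y hy
      · rw [sub_self, norm_zero]
        exact hη0
    have h7 : ‖nbs u x - nbs (msk b u) x‖ ≤ 2 * d * η := by
      have h8 : nbs u x - nbs (msk b u) x =
          ∑ i, ((u (sh x i 1) - msk b u (sh x i 1)) +
            (u (sh x i (-1)) - msk b u (sh x i (-1)))) := by
        unfold nbs
        rw [← Finset.sum_sub_distrib]
        refine Finset.sum_congr rfl fun i _ => ?_
        ring
      rw [h8]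
      calc ‖∑ i, ((u (sh x i 1) - msk b u (sh x i 1)) +
            (u (sh x i (-1)) - msk b u (sh x i (-1))))‖
          ≤ ∑ i : Fin d, 2 * η := by
            refine norm_sum_le_of_le _ fun i _ => ?_
            refine (norm_add_le _ _).trans ?_
            have g1 := h6 (sh x i 1)
            have g2 := h6 (sh x i (-1))
            linarith
        _ = 2 * d * η := by
            rw [Finset.sum_const, Finset.card_univ, Fintype.card_fin, nsmul_eq_mul]
            ring
    calc ‖(Ve b P.p x : ℂ) * u x - nbs (msk b u) x‖ =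
        ‖((Ve b P.p x : ℂ) * u x - nbs u x) + (nbs u x - nbs (msk b u) x)‖ := by
          congr 1
          ring
      _ ≤ ‖(Ve b P.p x : ℂ) * u x - nbs u x‖ + ‖nbs u x - nbs (msk b u) x‖ := norm_add_le _ _
      _ ≤ F + 2 * d * η := by linarith
  have hI : ∀ x : Fin d → ℤ, node b x → (∀ i, |x i| < b * N) →
      ‖Complex.I * u x - nbs u x‖ ≤ F := by
    intro x hx h1
    have h3 : x ≠ 1 := by
      rintro rfl
      exact hn11 hx
    have h4 := h x (mem_inn.2 ⟨h3, h1⟩)
    have h5 : Wi b P.p x = Complex.I := by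
      unfold Wi
      rw [if_pos hx]
    rwa [h5] at h4
  -- the step
  set ε : ℝ := (2 * CM + 1) * (F + 2 * d * η) / (pm * z ^ (d * N)) with hε
  have hden : 0 < pm * z ^ (d * N) := mul_pos hpm hzN
  have hG0 : 0 ≤ F + 2 * d * η := by positivity
  have hε0 : 0 ≤ ε := by
    rw [hε]
    positivity
  have hcell : ∀ x y : Fin d → ℤ, ¬ node b x → ¬ node b y → (∀ i, |x i| < b * N) →
      (∀ i, x i / b = y i / b) →
      ‖u x / (ww b z P.p x : ℂ) - u y / (ww b z P.p y : ℂ)‖ ≤ ε := by
    intro x y hx hy h1 e1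
    refine (cell_ratio hb hz hz1 P hC hP pm hpm hlow N hN u (F + 2 * d * η) hG0 hG x y hx hy
      h1 e1).trans ?_
    rw [hε]
    refine div_le_div_of_nonneg_right ?_ hden.le
    nlinarith
  have hcr : ∀ (x : Fin d → ℤ) (i : Fin d), b ∣ x i → (∀ j, j ≠ i → ¬ b ∣ x j) →
      |x i + 1| < b * N → |x i - 1| < b * N → (∀ j, j ≠ i → |x j| < b * N) →
      ‖u (sh x i 1) / (ww b z P.p (sh x i 1) : ℂ) -
        u (sh x i (-1)) / (ww b z P.p (sh x i (-1)) : ℂ)‖ ≤ ε := by
    intro x i h1 h2 h3 h4 h5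
    refine (cross_ratio hb hz hz1 P pm hpm hlow N hN u F η hF hη0 hnode hI x i h1 h2 h3 h4
      h5).trans ?_
    rw [hε]
    refine div_le_div_of_nonneg_right ?_ hden.le
    have h6 : 0 ≤ 2 * CM * (F + 2 * d * η) := by positivity
    linarith
  -- walks
  have hb0 : 0 < b := by omega
  have hupd : ∀ (w : Fin d → ℤ) (j : Fin d), (∀ i, i ≠ j → ¬ b ∣ w i) → ∀ n : ℤ, ¬ b ∣ n →
      ¬ node b (Function.update w j n) := by
    rintro w j hw n hn ⟨i, hi⟩
    by_cases hij : i = j
    · subst hij
      rw [Function.update_self] at hi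
      exact hn hi
    · rw [Function.update_of_ne hij] at hi
      exact hw i hij hi
  have hupm : ∀ (w : Fin d → ℤ) (j : Fin d), (∀ i, i ≠ j → |w i| < b * N) → ∀ n : ℤ,
      |n| < m → ∀ i, |Function.update w j n i| < b * N := by
    intro w j hw n hn i
    by_cases hij : i = j
    · subst hij
      rw [Function.update_self]
      exact hn
    · rw [Function.update_of_ne hij]
      exact hw i hij
  have hwalk : ∀ (w : Fin d → ℤ) (j : Fin d), (∀ i, i ≠ j → ¬ b ∣ w i) →
      (∀ i, i ≠ j → |w i| < b * N) → ∀ n : ℤ, ¬ b ∣ n → |n| < m →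
      ‖u (Function.update w j n) / (ww b z P.p (Function.update w j n) : ℂ) -
        u (Function.update w j 1) / (ww b z P.p (Function.update w j 1) : ℂ)‖ ≤
        2 * m * ε := by
    intro w j hw hwm n hn hnm
    refine BG.walk hb hm3 (fun n => u (Function.update w j n) /
      (ww b z P.p (Function.update w j n) : ℂ)) ε hε0 ?_ ?_ n hn hnm
    · intro k hk hk1 hkm hk1m
      refine hcell _ _ (hupd w j hw _ hk1) (hupd w j hw _ hk) (hupm w j hwm _ hk1m) fun i => ?_
      by_cases hij : i = j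
      · subst hij
        rw [Function.update_self, Function.update_self]
        exact APri_div hb0 hk1
      · rw [Function.update_of_ne hij, Function.update_of_ne hij]
    · intro k hk hk1 hk2
      have e1 : sh (Function.update w j k) j 1 = Function.update w j (k + 1) := by
        unfold sh
        rw [Function.update_idem, Function.update_self]
      have e2 : sh (Function.update w j k) j (-1) = Function.update w j (k - 1) := by
        unfold sh
        rw [Function.update_idem, Function.update_self]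
        rfl
      have h1 := hcr (Function.update w j k) j (by rw [Function.update_self]; exact hk)
        (fun i hij => by rw [Function.update_of_ne hij]; exact hw i hij)
        (by rw [Function.update_self]; exact hk1) (by rw [Function.update_self]; exact hk2)
        (fun i hij => by rw [Function.update_of_ne hij]; exact hwm i hij)
      rw [e1, e2] at h1
      exact h1
  have hu11 : u 1 = 0 := by
    apply h0
    rw [mem_inn]
    rintro ⟨h1, -⟩
    exact h1 rfl
  have hmr0 : (0 : ℝ) < m := by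
    have : (3 : ℝ) ≤ m := by exact_mod_cast hm3
    linarith
  have hall : ∀ x : Fin d → ℤ, ¬ node b x → (∀ i, |x i| < m) → ∀ s : Finset (Fin d),
      ‖u (fun i => if i ∈ s then x i else 1) /
        (ww b z P.p (fun i => if i ∈ s then x i else 1) : ℂ)‖ ≤ s.card * (2 * m * ε) := by
    intro x hx hxm s
    have hxd : ∀ i, ¬ b ∣ x i := fun i hi => hx ⟨i, hi⟩
    induction s using Finset.induction_on with
    | empty =>
      have h1 : (fun i => if i ∈ (∅ : Finset (Fin d)) then x i else 1) = (1 : Fin d → ℤ) := by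
        funext i
        simp
      rw [h1, hu11, zero_div, norm_zero, Finset.card_empty]
      simp
    | insert j s hj ih =>
      have e1 : (fun i => if i ∈ insert j s then x i else 1) =
          Function.update (fun i => if i ∈ s then x i else 1) j (x j) := by
        funext i
        by_cases hij : i = j
        · subst hij
          simp
        · rw [Function.update_of_ne hij]
          simp [hij]
      have e2 : (fun i => if i ∈ s then x i else 1) =
          Function.update (fun i => if i ∈ s then x i else 1) j 1 := by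
        funext i
        by_cases hij : i = j
        · subst hij
          simp [hj]
        · rw [Function.update_of_ne hij]
      have h1 := hwalk (fun i => if i ∈ s then x i else 1) j
        (fun i _ => by
          show ¬ b ∣ (if i ∈ s then x i else 1)
          split_ifs
          · exact hxd i
          · exact APri_not_dvd hb)
        (fun i _ => by
          show |if i ∈ s then x i else 1| < b * N
          split_ifs
          · exact hxm i
          · exact hone) (x j) (hxd j) (hxm j)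
      rw [← e1, ← e2] at h1
      rw [Finset.card_insert_of_notMem hj]
      push_cast
      have h2 : u (fun i => if i ∈ insert j s then x i else 1) /
          (ww b z P.p (fun i => if i ∈ insert j s then x i else 1) : ℂ) =
          (u (fun i => if i ∈ insert j s then x i else 1) /
          (ww b z P.p (fun i => if i ∈ insert j s then x i else 1) : ℂ) -
          u (fun i => if i ∈ s then x i else 1) /
          (ww b z P.p (fun i => if i ∈ s then x i else 1) : ℂ)) +
          u (fun i => if i ∈ s then x i else 1) /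
          (ww b z P.p (fun i => if i ∈ s then x i else 1) : ℂ) := by
        rw [sub_add_cancel]
      rw [h2]
      refine (norm_add_le _ _).trans ?_
      linarith
  -- the bound off the nodes
  have hoff : ∀ x, ¬ node b x → ‖u x‖ ≤ 2 * d * m * ε * pM := by
    intro x hx
    by_cases hxm : x ∈ inn d m
    · obtain ⟨-, h1⟩ := mem_inn.1 hxm
      have g3 := hall x hx h1 univ
      have g4 : (fun i => if i ∈ (univ : Finset (Fin d)) then x i else 1) = x := by
        funext i
        simp
      rw [g4, Finset.card_univ, Fintype.card_fin] at g3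
      have hw0 : ww b z P.p x ≠ 0 := ww_ne hb hz P hx
      have g5 : ‖u x‖ = ‖u x / (ww b z P.p x : ℂ)‖ * |ww b z P.p x| := by
        rw [norm_div, Complex.norm_real, Real.norm_eq_abs,
          div_mul_cancel₀ _ (abs_ne_zero.2 hw0)]
      rw [g5]
      calc ‖u x / (ww b z P.p x : ℂ)‖ * |ww b z P.p x| ≤ (d * (2 * m * ε)) * pM :=
            mul_le_mul g3 (hup x) (abs_nonneg _) (by positivity)
        _ = 2 * d * m * ε * pM := by ring
    · rw [h0 x hxm, norm_zero]
      positivity
  -- M₁
  set Q : ℝ := (N : ℝ) * (z⁻¹) ^ (d * N) with hQ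
  have hQ1 : 1 ≤ Q := by
    rw [hQ]
    calc (1 : ℝ) = 1 * 1 := by ring
      _ ≤ N * (z⁻¹) ^ (d * N) := mul_le_mul hNr (one_le_pow₀ hzi) zero_le_one (by linarith)
  have hoffQ : 2 * d * m * ε * pM = K * Q * (F + 2 * d * η) := by
    rw [hε, hK, hQ, hmr, inv_pow]
    field_simp
  set M : ℝ := (2 * d * K + 1) * Q with hM
  have hKQ : 0 ≤ K * Q := mul_nonneg hK0 (by linarith)
  have hM1 : 1 ≤ M := by
    rw [hM]
    nlinarith
  have hXM : X ≤ M * (F + η) := by
    by_cases hx : node b xs
    · have h1 := hnode xs hx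
      calc X ≤ η := h1
        _ ≤ F + η := by linarith
        _ ≤ M * (F + η) := le_mul_of_one_le_left (by linarith) hM1
    · have h1 := hoff xs hx
      rw [hoffQ] at h1
      have h2 : M * (F + η) = K * Q * (F + 2 * d * η) +
          ((2 * d - 1) * (K * Q) * F + Q * F + Q * η) := by
        rw [hM]
        ring
      have h3 : 0 ≤ (2 * d - 1) * (K * Q) * F + Q * F + Q * η := by
        have h4 : (0 : ℝ) ≤ 2 * d - 1 := by linarith
        positivity
      linarith
  -- AM-GM
  have hAG : 2 * (M * η) ≤ X + M ^ 2 * D * F := by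
    have h1 : 0 ≤ M ^ 2 * D * F := by positivity
    have h2 : (2 * (M * η)) ^ 2 ≤ (X + M ^ 2 * D * F) ^ 2 := by
      have h3 : (2 * (M * η)) ^ 2 = 4 * (X * (M ^ 2 * D * F)) := by
        calc (2 * (M * η)) ^ 2 = 4 * M ^ 2 * η ^ 2 := by ring
          _ = 4 * (X * (M ^ 2 * D * F)) := by rw [hη2]; ring
      have h4 : (X + M ^ 2 * D * F) ^ 2 - 4 * (X * (M ^ 2 * D * F)) =
          (X - M ^ 2 * D * F) ^ 2 := by ring
      have h5 := sq_nonneg (X - M ^ 2 * D * F)
      rw [h3]
      linarith
    exact (pow_le_pow_iff_left₀ (by positivity) (by positivity) two_ne_zero).1 h2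
  have hfin : X ≤ (2 + D) * M ^ 2 * F := by
    have h1 : M * F ≤ M ^ 2 * F := by
      refine mul_le_mul_of_nonneg_right ?_ hF
      calc M = 1 * M := (one_mul M).symm
        _ ≤ M * M := mul_le_mul_of_nonneg_right hM1 (by linarith)
        _ = M ^ 2 := (sq M).symm
    have h2 : (2 + D) * M ^ 2 * F = 2 * (M ^ 2 * F) + M ^ 2 * D * F := by ring
    have h3 : M * (F + η) = M * F + M * η := by ring
    linarith
  have hD2 : 2 + D ≤ 3 * (2 * (b : ℝ)) ^ d * (N : ℝ) ^ d := by
    have h1 : D = (2 * (b : ℝ)) ^ d * (N : ℝ) ^ d := by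
      rw [hD, hmr, ← mul_pow]
      ring
    have h2 : (1 : ℝ) ≤ (2 * (b : ℝ)) ^ d * (N : ℝ) ^ d := by
      calc (1 : ℝ) = 1 * 1 := by ring
        _ ≤ (2 * (b : ℝ)) ^ d * (N : ℝ) ^ d :=
          mul_le_mul hb2 (one_le_pow₀ hNr) zero_le_one (by positivity)
    rw [h1]
    linarith
  intro x
  calc ‖u x‖ ≤ X := hX x
    _ ≤ (2 + D) * M ^ 2 * F := hfin
    _ ≤ (3 * (2 * (b : ℝ)) ^ d * (N : ℝ) ^ d) * M ^ 2 * F := by gcongr
    _ = 3 * (2 * (b : ℝ)) ^ d * (2 * d * K + 1) ^ 2 * (N : ℝ) ^ (d + 2) *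
          (z⁻¹) ^ (2 * d * N) * F := by
        rw [hM, hQ]
        have : (z⁻¹) ^ (2 * d * N) = ((z⁻¹) ^ (d * N)) ^ 2 := by
          rw [← pow_mul]
          congr 1
          ring
        rw [this]
        ring

end Pool.Agent.Lib.MP_562b47_mp.GD
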