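import Mathlib

/-!
MP_562b47, every dimension `d`: the gadget for every energy (bound state in the continuum),
definitions. Paper: /team-store/MP_562b47_GADGET_helper36.md (the case `d = 2`; directory `BG`).
Lattice sites are functions `Fin d → ℤ`; the centre of the gadget is `1 = (1, …, 1)`.
-/

open Finset

namespace Pool.Agent.Lib.MP_562b47_mp.GD

noncomputable section

variable {d : ℕ}

/-- the site `x + t e_i` -/
def sh (x : Fin d → ℤ) (i : Fin d) (t : ℤ) : Fin d → ℤ := Function.update x i (x i + t)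

/-- sum over the `2 d` neighbours -/
def nbs {R : Type*} [AddCommMonoid R] (u : (Fin d → ℤ) → R) (x : Fin d → ℤ) : R :=
  ∑ i, (u (sh x i 1) + u (sh x i (-1)))

/-- nearest neighbours -/
def adj (x y : Fin d → ℤ) : Prop := ∃ i, y = sh x i 1 ∨ y = sh x i (-1)

instance : DecidableRel (adj (d := d)) := fun x y => by unfold adj; infer_instance

/-- the sites of a cell -/
def cl (d : ℕ) (b : ℤ) : Finset (Fin d → ℤ) := Fintype.piFinset fun _ => Icc 1 (b - 1)

/-- a profile: `w` in one cell -/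
structure Prof (d : ℕ) (b : ℤ) (z : ℝ) where
  p : (Fin d → ℤ) → ℝ
  ne : ∀ x ∈ cl d b, p x ≠ 0
  out : ∀ x, x ∉ cl d b → p x = 0
  side : ∀ (i : Fin d) (y : Fin d → ℤ),
    p (Function.update y i (b - 1)) = z * p (Function.update y i 1)

/-- the effective diagonal (`2 d - E + V`) of the cell -/
def Vp (p : (Fin d → ℤ) → ℝ) (x : Fin d → ℤ) : ℝ := nbs p x / p x

/-- the cell estimate with constant `C` -/
def CellEst (b : ℤ) (p : (Fin d → ℤ) → ℝ) (C : ℝ) : Prop :=
  ∀ (v : (Fin d → ℤ) → ℂ) (G : ℝ), 0 ≤ G → (∀ x, x ∉ cl d b → v x = 0) →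
    (∀ x ∈ cl d b, x ≠ 1 → ‖(Vp p x : ℂ) * v x - nbs v x‖ ≤ G) →
    ∀ x ∈ cl d b, ‖v x - v 1 / (p 1 : ℂ) * (p x : ℂ)‖ ≤ C * G

/-- the index set of the minor -/
def ci (d : ℕ) (b : ℤ) : Finset (Fin d → ℤ) := (cl d b).erase 1

/-- `diag (nbs q) - diag q * Adj` on the cell without `1` -/
def Mt {R : Type*} [CommRing R] (b : ℤ) (q : (Fin d → ℤ) → R) : Matrix (ci d b) (ci d b) R :=
  Matrix.of fun x y => (if x = y then nbs q x else 0) - if adj (x : Fin d → ℤ) y then q x else 0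

/-- the factor `z` in the last column -/
def zt (b : ℤ) (z : ℝ) (r : ℤ) : ℝ := if r = b - 1 then z else 1

/-- the first profile -/
def p0 (b : ℤ) (k z : ℝ) (x : Fin d → ℤ) : ℝ :=
  if x ∈ cl d b then ∏ i, (Real.sin (k * x i) * zt b z (x i)) else 0

/-- the second profile -/
def p1 (b : ℤ) (z : ℝ) (x : Fin d → ℤ) : ℝ :=
  if x ∈ cl d b then ∏ i, zt b z (x i) else 0

/-- nodes -/
def node (b : ℤ) (x : Fin d → ℤ) : Prop := ∃ i, b ∣ x i

instance (b : ℤ) : DecidablePred (node (d := d) b) := fun x => by unfold node; infer_instance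

/-- position in the cell -/
def rr (b : ℤ) (x : Fin d → ℤ) : Fin d → ℤ := fun i => |x i| % b

/-- level -/
def lv (b : ℤ) (x : Fin d → ℤ) : ℕ := ∑ i, (|x i| / b).toNat

/-- the exact solution -/
def ww (b : ℤ) (z : ℝ) (p : (Fin d → ℤ) → ℝ) (x : Fin d → ℤ) : ℝ :=
  (∏ i, (((x i).sign : ℤ) : ℝ)) * (-z) ^ lv b x * p (rr b x)

/-- the effective diagonal off the nodes -/
def Ve (b : ℤ) (p : (Fin d → ℤ) → ℝ) (x : Fin d → ℤ) : ℝ := Vp p (rr b x)

/-- the inner block with the centre, `|x| < m` -/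
def qi (d : ℕ) (m : ℤ) : Finset (Fin d → ℤ) := Fintype.piFinset fun _ => Icc (-(m - 1)) (m - 1)

/-- the inner block without the centre -/
def inn (d : ℕ) (m : ℤ) : Finset (Fin d → ℤ) := (qi d m).erase 1

/-- the block matrix with effective diagonal `W` -/
def KM {R : Type*} [CommRing R] (m : ℤ) (W : (Fin d → ℤ) → R) :
    Matrix (inn d m) (inn d m) R :=
  Matrix.of fun x y => (if x = y then W x else 0) - if adj (x : Fin d → ℤ) y then 1 else 0

open Classical in
/-- its inverse, extended by zero -/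
def KI {R : Type*} [CommRing R] (m : ℤ) (W : (Fin d → ℤ) → R) (x y : Fin d → ℤ) : R :=
  if hx : x ∈ inn d m then (if hy : y ∈ inn d m then (KM m W)⁻¹ ⟨x, hx⟩ ⟨y, hy⟩ else 0) else 0

end

end Pool.Agent.Lib.MP_562b47_mp.GD
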