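import Pool.Agent.Lib.MP_562b47_mp.GD.Sh

/-!
# GD-P0: the first profile  (`BG/P0.lean` is the case `d = 2`)

`p0 x = ∏ i, sin (k x_i) zt(x_i)` on the cell `{1..b-1}^d`, `zt (b-1) = z`, `zt = 1` otherwise.

`p0_prof`: `ne` from `hs` and `z > 0`; `out` by definition; `side`: if `y_j ∈ [1, b-1]` for all `j ≠ i`, both
updated points are in the cell (`b ≥ 3`); split off the factor `i` of the product (`Fintype.prod_eq_mul_prod_compl` or
`Finset.prod_update_of_mem`-like; the other factors do not change): it reads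
`sin (k(b-1)) z = z (sin k · 1)` (`zt b z 1 = 1` because `1 ≠ b - 1`); otherwise both sides are `0`.

`p0_Vp`: for `x` in the cell and a neighbour `y = sh x i t`, `t = ±1`, only the factor `i` changes:
`p0 y / p0 x = sin (k (x_i + t)) zt(x_i + t) / (sin (k x_i) zt(x_i))`; this also holds when `y` is outside the cell,
since then `x_i + t` is `0` or `b` and both sides vanish (`sin (k·0) = 0 = sin (k b)`). The factor `zt/zt` is `1`, `z` or
`1/z`. For fixed `i`, `(sin (k(x_i+1)) + sin (k(x_i-1)))/sin (k x_i) = 2 cos k`. Let `M ≥ 1/|sin (k r)|` for `0 < r < b`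
(finitely many `r`); then `|Vp - 2 d cos k| ≤ 2 d M (1/z - 1)`, which is `< ε` for `z` close to `1`.
-/

open Finset

namespace Pool.Agent.Lib.MP_562b47_mp.GD

variable {d : ℕ}

private theorem P0_zt {b : ℤ} {z : ℝ} (h1 : z ≤ 1) (r : ℤ) :
    z ≤ zt b z r ∧ zt b z r ≤ 1 := by
  unfold zt
  split_ifs
  · exact ⟨le_refl _, h1⟩
  · exact ⟨h1, le_refl _⟩

/-- split off one factor -/
private theorem P0_upd (f : ℤ → ℝ) (y : Fin d → ℤ) (i : Fin d) (c : ℤ) :
    ∏ j, f (Function.update y i c j) = f c * ∏ j ∈ univ.erase i, f (y j) := by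
  rw [← Finset.mul_prod_erase univ _ (Finset.mem_univ i), Function.update_self]
  congr 1
  refine Finset.prod_congr rfl fun j hj => ?_
  rw [Function.update_of_ne (Finset.ne_of_mem_erase hj)]

private theorem P0_sh {b : ℤ} {k z : ℝ} (h0 : Real.sin (k * b) = 0) {x : Fin d → ℤ}
    (hx : x ∈ cl d b) (i : Fin d) (t : ℤ) (ht : t = 1 ∨ t = -1) :
    p0 b k z (sh x i t) = (Real.sin (k * ((x i + t : ℤ) : ℝ)) * zt b z (x i + t)) *
      ∏ j ∈ univ.erase i, (Real.sin (k * x j) * zt b z (x j)) := by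
  have hx' := mem_cl.1 hx
  unfold p0
  split_ifs with h
  · exact P0_upd (fun r : ℤ => Real.sin (k * r) * zt b z r) x i (x i + t)
  · have h5 : x i + t = 0 ∨ x i + t = b := by
      by_contra hc
      push Not at hc
      apply h
      rw [mem_cl]
      intro j
      by_cases hj : j = i
      · subst hj
        rw [sh_same]
        have := hx' j
        obtain ⟨c1, c2⟩ := hc
        rcases ht with rfl | rfl <;> omega
      · rw [sh_ne x hj]
        exact hx' j
    rcases h5 with h5 | h5
    · rw [h5, Int.cast_zero, mul_zero, Real.sin_zero, zero_mul, zero_mul]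
    · rw [h5, h0, zero_mul, zero_mul]

private theorem P0_self {b : ℤ} {k z : ℝ} {x : Fin d → ℤ}
    (hx : x ∈ cl d b) (i : Fin d) :
    p0 b k z x = (Real.sin (k * x i) * zt b z (x i)) *
      ∏ j ∈ univ.erase i, (Real.sin (k * x j) * zt b z (x j)) := by
  unfold p0
  rw [if_pos hx, ← Finset.mul_prod_erase univ _ (Finset.mem_univ i)]

theorem p0_prof {b : ℤ} (hb : 3 ≤ b) {k z : ℝ}
    (hs : ∀ r : ℤ, 0 < r → r < b → Real.sin (k * r) ≠ 0)
    (h1 : Real.sin (k * (b - 1 : ℤ)) = Real.sin k) (hz : 0 < z) :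
    ∃ P : Prof d b z, P.p = p0 b k z := by
  have hzt : ∀ r : ℤ, zt b z r ≠ 0 := by
    intro r
    unfold zt
    split_ifs
    · exact hz.ne'
    · exact one_ne_zero
  have hz1 : zt b z 1 = 1 := by
    unfold zt
    rw [if_neg (by omega)]
  have hzb : zt b z (b - 1) = z := by
    unfold zt
    rw [if_pos rfl]
  refine ⟨⟨p0 b k z, ?_, ?_, ?_⟩, rfl⟩
  · intro x hx
    have hx' := mem_cl.1 hx
    unfold p0
    rw [if_pos hx]
    refine Finset.prod_ne_zero_iff.2 fun i _ => ?_
    have := hx' i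
    exact mul_ne_zero (hs _ (by omega) (by omega)) (hzt _)
  · intro x hx
    unfold p0
    rw [if_neg hx]
  · intro i y
    by_cases hy : ∀ j, j ≠ i → 1 ≤ y j ∧ y j ≤ b - 1
    · have m1 : Function.update y i (b - 1) ∈ cl d b := by
        rw [mem_cl]
        intro j
        by_cases hj : j = i
        · subst hj
          rw [Function.update_self]
          exact ⟨by omega, le_refl _⟩
        · rw [Function.update_of_ne hj]
          exact hy j hj
      have m2 : Function.update y i 1 ∈ cl d b := by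
        rw [mem_cl]
        intro j
        by_cases hj : j = i
        · subst hj
          rw [Function.update_self]
          exact ⟨le_refl _, by omega⟩
        · rw [Function.update_of_ne hj]
          exact hy j hj
      unfold p0
      rw [if_pos m1, if_pos m2,
        P0_upd (fun r : ℤ => Real.sin (k * r) * zt b z r) y i (b - 1),
        P0_upd (fun r : ℤ => Real.sin (k * r) * zt b z r) y i 1]
      rw [h1, hz1, hzb, Int.cast_one, mul_one, mul_one]
      ring
    · have m1 : Function.update y i (b - 1) ∉ cl d b := fun h => hy fun j hj => by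
        have := mem_cl.1 h j
        rwa [Function.update_of_ne hj] at this
      have m2 : Function.update y i 1 ∉ cl d b := fun h => hy fun j hj => by
        have := mem_cl.1 h j
        rwa [Function.update_of_ne hj] at this
      unfold p0
      rw [if_neg m1, if_neg m2, mul_zero]

theorem p0_Vp {b : ℤ} (hb : 3 ≤ b) {k : ℝ} (h0 : Real.sin (k * b) = 0)
    (hs : ∀ r : ℤ, 0 < r → r < b → Real.sin (k * r) ≠ 0) (ε : ℝ) (hε : 0 < ε) :
    ∃ z0 : ℝ, 0 < z0 ∧ z0 < 1 ∧ ∀ z : ℝ, z0 < z → z < 1 → ∀ x ∈ cl d b,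
      |Vp (p0 b k z) x - 2 * d * Real.cos k| < ε := by
  -- a lower bound for the sines
  obtain ⟨m, hm, hmx⟩ : ∃ m : ℝ, 0 < m ∧ ∀ r ∈ Icc (1 : ℤ) (b - 1),
      m ≤ |Real.sin (k * r)| := by
    have hne : (Icc (1 : ℤ) (b - 1)).Nonempty := ⟨1, Finset.mem_Icc.2 ⟨le_refl _, by omega⟩⟩
    obtain ⟨x0, hx0, hmin⟩ := Finset.exists_min_image (Icc (1 : ℤ) (b - 1))
      (fun r : ℤ => |Real.sin (k * r)|) hne
    rw [Finset.mem_Icc] at hx0
    exact ⟨_, abs_pos.2 (hs _ (by omega) (by omega)), hmin⟩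
  set δ : ℝ := ε / (d + 1) with hδ
  have hd0 : (0 : ℝ) < (d : ℝ) + 1 := by positivity
  have hδ0 : 0 < δ := div_pos hε hd0
  refine ⟨1 - min (1 / 2) (m * δ / 8), ?_, ?_, ?_⟩
  · have : min (1 / 2 : ℝ) (m * δ / 8) ≤ 1 / 2 := min_le_left _ _
    linarith
  · have : 0 < min (1 / 2 : ℝ) (m * δ / 8) := lt_min (by norm_num) (by positivity)
    linarith
  · intro z hz hz1 x hx
    have e1 : min (1 / 2 : ℝ) (m * δ / 8) ≤ 1 / 2 := min_le_left _ _
    have e2 : min (1 / 2 : ℝ) (m * δ / 8) ≤ m * δ / 8 := min_le_right _ _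
    have hzh : 1 / 2 < z := by linarith
    have hz0 : 0 < z := by linarith
    have hzm : 1 - z < m * δ / 8 := by linarith
    have hx' := mem_cl.1 hx
    -- one coordinate
    have one : ∀ i : Fin d,
        |(p0 b k z (sh x i 1) + p0 b k z (sh x i (-1))) / p0 b k z x - 2 * Real.cos k| ≤ δ := by
      intro i
      have hxi := hx' i
      rw [P0_sh h0 hx i 1 (Or.inl rfl), P0_sh h0 hx i (-1) (Or.inr rfl), P0_self hx i]
      set Q := ∏ j ∈ univ.erase i, (Real.sin (k * x j) * zt b z (x j)) with hQ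
      have hQ0 : Q ≠ 0 := by
        rw [hQ]
        refine Finset.prod_ne_zero_iff.2 fun j _ => ?_
        have := hx' j
        refine mul_ne_zero (hs _ (by omega) (by omega)) ?_
        have := (P0_zt (b := b) hz1.le (x j)).1
        linarith
      have hS := hmx (x i) (Finset.mem_Icc.2 hxi)
      set S := Real.sin (k * x i) with hSd
      have s1 : Real.sin (k * ((x i + 1 : ℤ) : ℝ)) =
          S * Real.cos k + Real.cos (k * x i) * Real.sin k := by
        rw [show k * ((x i + 1 : ℤ) : ℝ) = k * x i + k by push_cast; ring, Real.sin_add]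
      have s2 : Real.sin (k * ((x i + -1 : ℤ) : ℝ)) =
          S * Real.cos k - Real.cos (k * x i) * Real.sin k := by
        rw [show k * ((x i + -1 : ℤ) : ℝ) = k * x i - k by push_cast; ring, Real.sin_sub]
      have b1 : |Real.sin (k * ((x i + 1 : ℤ) : ℝ))| ≤ 1 := Real.abs_sin_le_one _
      have b2 : |Real.sin (k * ((x i + -1 : ℤ) : ℝ))| ≤ 1 := Real.abs_sin_le_one _
      have hsum : Real.sin (k * ((x i + 1 : ℤ) : ℝ)) + Real.sin (k * ((x i + -1 : ℤ) : ℝ)) =
          2 * Real.cos k * S := by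
        rw [s1, s2]
        ring
      set T1 := Real.sin (k * ((x i + 1 : ℤ) : ℝ)) with hT1
      set T2 := Real.sin (k * ((x i + -1 : ℤ) : ℝ)) with hT2
      obtain ⟨c0, c0'⟩ := P0_zt (b := b) hz1.le (x i)
      obtain ⟨c1, c1'⟩ := P0_zt (b := b) hz1.le (x i + 1)
      obtain ⟨c2, c2'⟩ := P0_zt (b := b) hz1.le (x i + -1)
      set Z0 := zt b z (x i) with hZ0
      set Z1 := zt b z (x i + 1) with hZ1
      set Z2 := zt b z (x i + -1) with hZ2
      have hZ0p : 0 < Z0 := by linarith
      have hSne : S ≠ 0 := by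
        intro h
        rw [h, abs_zero] at hS
        linarith
      have hSp : 0 < |S| := abs_pos.2 hSne
      have key : (T1 * Z1 * Q + T2 * Z2 * Q) / (S * Z0 * Q) - 2 * Real.cos k =
          (T1 * (Z1 - Z0) + T2 * (Z2 - Z0)) / (S * Z0) := by
        have e3 : (T1 * Z1 * Q + T2 * Z2 * Q) / (S * Z0 * Q) = (T1 * Z1 + T2 * Z2) / (S * Z0) := by
          rw [← add_mul, mul_div_mul_right _ _ hQ0]
        rw [e3, eq_div_iff (mul_ne_zero hSne hZ0p.ne'), sub_mul,
          div_mul_cancel₀ _ (mul_ne_zero hSne hZ0p.ne')]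
        have : 2 * Real.cos k * (S * Z0) = (T1 + T2) * Z0 := by rw [hsum]; ring
        rw [this]
        ring
      rw [key, abs_div, abs_mul S Z0, abs_of_pos hZ0p, div_le_iff₀ (by positivity)]
      have dd : ∀ T Z : ℝ, |T| ≤ 1 → z ≤ Z → Z ≤ 1 → |T * (Z - Z0)| ≤ 1 - z := by
        intro T Z hT hZ hZ'
        rw [abs_mul]
        have h2 : |Z - Z0| ≤ 1 - z := by
          rw [abs_le]
          constructor <;> linarith
        calc |T| * |Z - Z0| ≤ 1 * (1 - z) :=
              mul_le_mul hT h2 (abs_nonneg _) zero_le_one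
          _ = 1 - z := one_mul _
      have hnum : |T1 * (Z1 - Z0) + T2 * (Z2 - Z0)| ≤ 2 * (1 - z) := by
        have g1 := dd T1 Z1 b1 c1 c1'
        have g2 := dd T2 Z2 b2 c2 c2'
        rw [abs_le] at g1 g2 ⊢
        constructor <;> linarith [g1.1, g1.2, g2.1, g2.2]
      refine hnum.trans ?_
      have h4 : m * (1 / 2) ≤ |S| * Z0 :=
        mul_le_mul hS (by linarith) (by norm_num) (abs_nonneg _)
      have h5 : δ * (m * (1 / 2)) ≤ δ * (|S| * Z0) := mul_le_mul_of_nonneg_left h4 hδ0.le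
      nlinarith
    have hV : Vp (p0 b k z) x - 2 * d * Real.cos k =
        ∑ i : Fin d, ((p0 b k z (sh x i 1) + p0 b k z (sh x i (-1))) / p0 b k z x -
          2 * Real.cos k) := by
      unfold Vp nbs
      rw [Finset.sum_sub_distrib, Finset.sum_div, Finset.sum_const, Finset.card_univ,
        Fintype.card_fin, nsmul_eq_mul]
      ring
    rw [hV]
    calc |∑ i : Fin d, ((p0 b k z (sh x i 1) + p0 b k z (sh x i (-1))) / p0 b k z x -
          2 * Real.cos k)| ≤ ∑ i : Fin d,
          |(p0 b k z (sh x i 1) + p0 b k z (sh x i (-1))) / p0 b k z x - 2 * Real.cos k| :=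
          Finset.abs_sum_le_sum_abs _ _
      _ ≤ ∑ _i : Fin d, δ := Finset.sum_le_sum fun i _ => one i
      _ = d * δ := by
          rw [Finset.sum_const, Finset.card_univ, Fintype.card_fin, nsmul_eq_mul]
      _ < ε := by
          rw [hδ]
          rw [mul_div_assoc', div_lt_iff₀ hd0]
          nlinarith

end Pool.Agent.Lib.MP_562b47_mp.GD
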