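import Pool.Agent.Lib.MP_562b47_mp.GD.Mul

/-!
# GD-P1: the second (positive) profile has an invertible minor  (`BG/P1.lean` is the case `d = 2`)

`p1 = ∏ i, zt(x_i)` on the cell, positive there. `p1_prof` as for `p0` (direct).

`p1_minor`. If `det = 0` there is `u ≠ 0` on `ci d b` with `(Mt b p1).mulVec u = 0`
(`Matrix.exists_mulVec_eq_zero_iff`). Extend `u` by `0`, and put `g x = u x / p1 x` on the cell, `0`
outside; so `u = p1 g`, `g 1 = 0`. By `Mt_mulVec`, for `x ∈ ci d b`:
`0 = nbs p1 x * u x - p1 x * nbs u x = p1 x * ∑_{y ~ x} p1 y (g x - g y)`, hence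
`∑_{y ~ x} p1 y (g x - g y) = 0` for all `x ∈ ci d b`.
Maximum principle: let `x` be a point of the cell where `g` is maximal, with `∑ i, x_i` as small as possible. If
`x ≠ 1` the equation (all terms `p1 y (g x - g y) ≥ 0`, those outside the cell vanish as `p1 y = 0`) forces
`g y = g x` for all neighbours `y` in the cell, in particular for `sh x i (-1)` with `x_i ≥ 2`, which has a smaller
sum: contradiction. So the maximum is `g 1 = 0`; the same for `-g`. So `g = 0`, `u = 0`, contradiction.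
-/

open Finset

namespace Pool.Agent.Lib.MP_562b47_mp.GD

variable {d : ℕ}

private theorem zt_pos {b : ℤ} {z : ℝ} (hz : 0 < z) (r : ℤ) : 0 < zt b z r := by
  unfold zt
  split_ifs
  · exact hz
  · exact one_pos

private theorem zt_one {b : ℤ} (hb : 3 ≤ b) (z : ℝ) : zt b z 1 = 1 := by
  unfold zt
  rw [if_neg]
  omega

private theorem zt_last (b : ℤ) (z : ℝ) : zt b z (b - 1) = z := by
  unfold zt
  rw [if_pos rfl]

private theorem p1_pos' {b : ℤ} {z : ℝ} (hz : 0 < z) (x : Fin d → ℤ) (hx : x ∈ cl d b) :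
    0 < p1 b z x := by
  unfold p1
  rw [if_pos hx]
  exact prod_pos fun i _ => zt_pos hz _

private theorem p1_nonneg {b : ℤ} {z : ℝ} (hz : 0 < z) (x : Fin d → ℤ) : 0 ≤ p1 b z x := by
  by_cases hx : x ∈ cl d b
  · exact (p1_pos' hz x hx).le
  · unfold p1
    rw [if_neg hx]

theorem p1_prof {b : ℤ} (hb : 3 ≤ b) {z : ℝ} (hz : 0 < z) :
    ∃ P : Prof d b z, P.p = p1 b z := by
  refine ⟨⟨p1 b z, fun x hx => (p1_pos' hz x hx).ne', fun x hx => ?_, fun i y => ?_⟩, rfl⟩
  · unfold p1
    rw [if_neg hx]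
  · have hiff : ∀ v : ℤ, 1 ≤ v → v ≤ b - 1 →
        (Function.update y i v ∈ cl d b ↔ ∀ j, j ≠ i → 1 ≤ y j ∧ y j ≤ b - 1) := by
      intro v hv1 hv2
      rw [mem_cl]
      constructor
      · intro h j hj
        have h1 := h j
        rw [Function.update_of_ne hj] at h1
        exact h1
      · intro h j
        by_cases hj : j = i
        · rw [hj, Function.update_self]
          exact ⟨hv1, hv2⟩
        · rw [Function.update_of_ne hj]
          exact h j hj
    have hprod : ∀ v : ℤ, ∏ j, zt b z (Function.update y i v j) =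
        zt b z v * ∏ j ∈ univ.erase i, zt b z (y j) := by
      intro v
      rw [← mul_prod_erase univ _ (mem_univ i), Function.update_self]
      congr 1
      refine prod_congr rfl fun j hj => ?_
      rw [Function.update_of_ne (ne_of_mem_erase hj)]
    by_cases hy : ∀ j, j ≠ i → 1 ≤ y j ∧ y j ≤ b - 1
    · unfold p1
      rw [if_pos ((hiff (b - 1) (by omega) le_rfl).2 hy), if_pos ((hiff 1 le_rfl (by omega)).2 hy),
        hprod, hprod, zt_last, zt_one hb, one_mul]
    · unfold p1
      rw [if_neg (fun h => hy ((hiff (b - 1) (by omega) le_rfl).1 h)),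
        if_neg (fun h => hy ((hiff 1 le_rfl (by omega)).1 h)), mul_zero]

theorem p1_pos {b : ℤ} {z : ℝ} (hz : 0 < z) (x : Fin d → ℤ) (hx : x ∈ cl d b) :
    0 < p1 b z x := by
  exact p1_pos' hz x hx

/-- maximum principle -/
private theorem max_principle {b : ℤ} {z : ℝ} (hz : 0 < z) (g : (Fin d → ℤ) → ℝ)
    (h0 : g 1 = 0)
    (hg : ∀ x ∈ cl d b, x ≠ 1 →
      ∑ i, (p1 b z (sh x i 1) * (g x - g (sh x i 1)) +
        p1 b z (sh x i (-1)) * (g x - g (sh x i (-1)))) = 0) :
    ∀ x ∈ cl d b, g x ≤ 0 := by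
  intro x0 hx0
  obtain ⟨x1, hx1, hm1⟩ := exists_max_image (cl d b) g ⟨x0, hx0⟩
  obtain ⟨x, hx, hm⟩ := exists_min_image ((cl d b).filter (fun y => g y = g x1))
    (fun y => ∑ i, y i) ⟨x1, mem_filter.2 ⟨hx1, rfl⟩⟩
  rw [mem_filter] at hx
  obtain ⟨hxc, hxg⟩ := hx
  have hmax : ∀ y ∈ cl d b, g y ≤ g x := fun y hy => by
    rw [hxg]
    exact hm1 y hy
  have hterm : ∀ y : Fin d → ℤ, 0 ≤ p1 b z y * (g x - g y) := by
    intro y
    by_cases hy : y ∈ cl d b
    · exact mul_nonneg (p1_nonneg hz y) (sub_nonneg.2 (hmax y hy))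
    · have : p1 b z y = 0 := by
        unfold p1
        rw [if_neg hy]
      rw [this, zero_mul]
  have hlow : ∀ y ∈ cl d b, p1 b z y * (g x - g y) ≤ 0 → ∑ i, x i ≤ ∑ i, y i := by
    intro y hy h
    have h1 : 0 < p1 b z y := p1_pos' hz y hy
    have h2 : g x - g y ≤ 0 := by
      by_contra h3
      have := mul_pos h1 (not_le.1 h3)
      linarith
    have h3 : g y = g x := le_antisymm (hmax y hy) (by linarith)
    exact hm y (mem_filter.2 ⟨hy, by rw [h3, hxg]⟩)
  by_cases hx11 : x = 1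
  · have := hmax x0 hx0
    rw [hx11, h0] at this
    exact this
  exfalso
  have heq := hg x hxc hx11
  rw [sum_eq_zero_iff_of_nonneg fun i _ => add_nonneg (hterm _) (hterm _)] at heq
  obtain ⟨i, hi⟩ := Function.ne_iff.1 hx11
  have hi1 : x i ≠ 1 := hi
  have hxm := mem_cl.1 hxc
  have hy : sh x i (-1) ∈ cl d b := by
    rw [mem_cl]
    intro j
    by_cases hj : j = i
    · rw [hj, sh_same]
      have := hxm i
      omega
    · rw [sh_ne x hj]
      exact hxm j
  have h1 := heq i (mem_univ i)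
  have h2 := hlow _ hy (by
    have t1 := hterm (sh x i 1)
    linarith)
  have h3 : ∑ j, sh x i (-1) j < ∑ j, x j := by
    refine sum_lt_sum (fun j _ => ?_) ⟨i, mem_univ i, ?_⟩
    · by_cases hj : j = i
      · rw [hj, sh_same]
        omega
      · rw [sh_ne x hj]
    · rw [sh_same]
      omega
  omega

theorem p1_minor {b : ℤ} (hb : 3 ≤ b) {z : ℝ} (hz : 0 < z) :
    (Mt b (p1 (d := d) b z)).det ≠ 0 := by
  intro hdet
  obtain ⟨u, hu0, hu⟩ := Matrix.exists_mulVec_eq_zero_iff.2 hdet
  apply hu0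
  classical
  set v : (Fin d → ℤ) → ℝ := fun x => if hx : x ∈ ci d b then u ⟨x, hx⟩ else 0 with hv
  have hvu : (fun y : ci d b => v y) = u := by
    funext y
    simp only [hv]
    rw [dif_pos y.2]
  have hv0 : ∀ x, x ∉ ci d b → v x = 0 := by
    intro x hx
    simp only [hv]
    rw [dif_neg hx]
  have heq : ∀ x ∈ ci d b, nbs (p1 b z) x * v x - p1 b z x * nbs v x = 0 := by
    intro x hx
    have h1 := Mt_mulVec b (p1 b z) v hv0 ⟨x, hx⟩
    rw [hvu, hu] at h1
    exact h1.symm
  have hcl : ∀ x, x ∉ cl d b → v x = 0 := by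
    intro x hx
    apply hv0
    intro h
    exact hx (mem_of_mem_erase h)
  have hout : ∀ x : Fin d → ℤ, x ∉ cl d b → p1 b z x = 0 := by
    intro x hx
    unfold p1
    rw [if_neg hx]
  set g : (Fin d → ℤ) → ℝ := fun x => v x / p1 b z x with hgdef
  have hvg : ∀ x, v x = p1 b z x * g x := by
    intro x
    by_cases hx : x ∈ cl d b
    · have := (p1_pos' hz x hx).ne'
      simp only [hgdef]
      field_simp
    · rw [hcl x hx, hout x hx, zero_mul]
  have hg0 : g 1 = 0 := by
    have : v 1 = 0 := hv0 _ (by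
      unfold ci
      exact notMem_erase _ _)
    simp only [hgdef]
    rw [this, zero_div]
  have hgeq : ∀ x ∈ cl d b, x ≠ 1 →
      ∑ i, (p1 b z (sh x i 1) * (g x - g (sh x i 1)) +
        p1 b z (sh x i (-1)) * (g x - g (sh x i (-1)))) = 0 := by
    intro x hx hne
    have h1 := heq x (mem_erase.2 ⟨hne, hx⟩)
    have h2 := (p1_pos' hz x hx).ne'
    have h3 : ∑ i, (p1 b z (sh x i 1) * (g x - g (sh x i 1)) +
        p1 b z (sh x i (-1)) * (g x - g (sh x i (-1)))) = nbs (p1 b z) x * g x - nbs v x := by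
      unfold nbs
      rw [sum_mul, ← sum_sub_distrib]
      refine sum_congr rfl fun i _ => ?_
      rw [hvg (sh x i 1), hvg (sh x i (-1))]
      ring
    apply mul_left_cancel₀ h2
    rw [mul_zero, ← h1, h3, hvg x]
    ring
  have hle := max_principle hz g hg0 hgeq
  have hge := max_principle hz (fun x => -g x) (by show -g 1 = 0; rw [hg0, neg_zero])
    (fun x hx hne => by
      have h1 := hgeq x hx hne
      rw [← neg_eq_zero, ← sum_neg_distrib] at h1
      rw [← h1]
      refine sum_congr rfl fun i _ => ?_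
      ring)
  funext y
  have hy : (y : Fin d → ℤ) ∈ cl d b := mem_of_mem_erase y.2
  have h1 := hle y hy
  have h2 : -g y ≤ 0 := hge y hy
  have h3 : g y = 0 := le_antisymm h1 (by linarith)
  have h4 : v y = 0 := by
    rw [hvg, h3, mul_zero]
  have h5 := congrFun hvu y
  rw [← h5]
  exact h4

end Pool.Agent.Lib.MP_562b47_mp.GD
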