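import Pool.Agent.Lib.MP_562b47_mp.GD.Sh

/-!
# GD-Mul: the matrices `Mt` and `KM` act as expected  (`BG/Mul.lean` is the case `d = 2`)

Proof. `∑_{y ∈ T} (if adj x y then c else 0) * v y = c * nbs v x` if `v = 0` outside `T`: the `2 d` neighbours
`sh x i 1`, `sh x i (-1)` of `x` are different points (`sh_eq_iff`). E.g. the map `(i, t) ↦ sh x i t` on
`univ ×ˢ {1, -1}` is injective and its image is the set of the neighbours (`Finset.sum_image`); terms outside `T`
vanish. `Finset.sum_coe_sort` turns the sum over the subtype into a sum over `T`.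
`adj_symm`: `sh_sh`, `sh_zero`.
-/

open Finset

namespace Pool.Agent.Lib.MP_562b47_mp.GD

variable {d : ℕ}

theorem sum_adj {R : Type*} [CommRing R] (T : Finset (Fin d → ℤ)) (v : (Fin d → ℤ) → R)
    (hv : ∀ x, x ∉ T → v x = 0) (x : Fin d → ℤ) (c : R) :
    ∑ y ∈ T, (if adj x y then c else 0) * v y = c * nbs v x := by
  classical
  have h11 : (1 : ℤ) ≠ -1 := by decide
  obtain ⟨P, hP⟩ : ∃ P : Finset (Fin d × ℤ), P = univ ×ˢ {1, -1} := ⟨_, rfl⟩
  have hPm : ∀ p ∈ P, p.2 ≠ 0 := by
    intro p hp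
    rw [hP, mem_product, mem_insert, mem_singleton] at hp
    omega
  obtain ⟨N, hN⟩ : ∃ N : Finset (Fin d → ℤ), N = P.image fun p => sh x p.1 p.2 := ⟨_, rfl⟩
  have hmem : ∀ y, y ∈ N ↔ adj x y := by
    intro y
    rw [hN, mem_image]
    unfold adj
    constructor
    · rintro ⟨⟨i, t⟩, hp, rfl⟩
      rw [hP, mem_product, mem_insert, mem_singleton] at hp
      obtain ⟨-, h | h⟩ := hp
      · exact ⟨i, Or.inl (by simp only at h; rw [h])⟩
      · exact ⟨i, Or.inr (by simp only at h; rw [h])⟩
    · rintro ⟨i, h | h⟩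
      · exact ⟨(i, 1), by simp [hP], h.symm⟩
      · exact ⟨(i, -1), by simp [hP], h.symm⟩
  have h4 : ∑ y ∈ N, v y = nbs v x := by
    rw [hN, Finset.sum_image]
    · rw [hP, Finset.sum_product]
      unfold nbs
      refine Finset.sum_congr rfl fun i _ => ?_
      rw [Finset.sum_insert (by simp), Finset.sum_singleton]
    · intro p hp q hq h
      have := (sh_eq_iff x p.1 q.1 p.2 q.2 (hPm p hp) (hPm q hq)).1 h
      exact Prod.ext this.1 this.2
  calc ∑ y ∈ T, (if adj x y then c else 0) * v y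
      = ∑ y ∈ T ∪ N, (if adj x y then c else 0) * v y :=
        Finset.sum_subset Finset.subset_union_left fun y _ hy => by rw [hv y hy, mul_zero]
    _ = ∑ y ∈ N, (if adj x y then c else 0) * v y :=
        (Finset.sum_subset Finset.subset_union_right fun y _ hy => by
          rw [if_neg fun h => hy ((hmem y).2 h), zero_mul]).symm
    _ = ∑ y ∈ N, c * v y := Finset.sum_congr rfl fun y hy => by rw [if_pos ((hmem y).1 hy)]
    _ = c * nbs v x := by rw [← Finset.mul_sum, h4]

theorem Mt_mulVec {R : Type*} [CommRing R] (b : ℤ) (q v : (Fin d → ℤ) → R)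
    (hv : ∀ x, x ∉ ci d b → v x = 0) (x : ci d b) :
    (Mt b q).mulVec (fun y => v y) x = nbs q x * v x - q x * nbs v x := by
  have h1 : (Mt b q).mulVec (fun y => v y) x =
      ∑ y : ci d b,
        ((if x = y then nbs q x else 0) * v y -
          (if adj (x : Fin d → ℤ) y then q x else 0) * v y) := by
    refine Finset.sum_congr rfl fun y _ => ?_
    rw [← sub_mul]
    rfl
  rw [h1, Finset.sum_sub_distrib]
  congr 1
  · rw [Finset.sum_eq_single x]
    · rw [if_pos rfl]
    · intro y _ hy
      rw [if_neg (fun h => hy h.symm), zero_mul]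
    · intro h
      exact absurd (Finset.mem_univ x) h
  · rw [← sum_adj (ci d b) v hv x (q x)]
    exact Finset.sum_coe_sort (ci d b) (fun y => (if adj (x : Fin d → ℤ) y then q x else 0) * v y)

theorem KM_mulVec {R : Type*} [CommRing R] (m : ℤ) (W v : (Fin d → ℤ) → R)
    (hv : ∀ x, x ∉ inn d m → v x = 0) (x : inn d m) :
    (KM m W).mulVec (fun y => v y) x = W x * v x - nbs v x := by
  have h1 : (KM m W).mulVec (fun y => v y) x =
      ∑ y : inn d m,
        ((if x = y then W x else 0) * v y - (if adj (x : Fin d → ℤ) y then 1 else 0) * v y) := by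
    refine Finset.sum_congr rfl fun y _ => ?_
    rw [← sub_mul]
    rfl
  rw [h1, Finset.sum_sub_distrib]
  congr 1
  · rw [Finset.sum_eq_single x]
    · rw [if_pos rfl]
    · intro y _ hy
      rw [if_neg (fun h => hy h.symm), zero_mul]
    · intro h
      exact absurd (Finset.mem_univ x) h
  · rw [← one_mul (nbs v x), ← sum_adj (inn d m) v hv x 1]
    exact Finset.sum_coe_sort (inn d m)
      (fun y => (if adj (x : Fin d → ℤ) y then 1 else 0) * v y)

theorem adj_symm {x y : Fin d → ℤ} (h : adj x y) : adj y x := by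
  unfold adj at h ⊢
  obtain ⟨i, h | h⟩ := h
  · exact ⟨i, Or.inr (by rw [h, sh_sh]; norm_num [sh_zero])⟩
  · exact ⟨i, Or.inl (by rw [h, sh_sh]; norm_num [sh_zero])⟩

theorem KM_isSymm {R : Type*} [CommRing R] (m : ℤ) (W : (Fin d → ℤ) → R) :
    (KM m W).IsSymm := by
  unfold Matrix.IsSymm
  ext i j
  rw [Matrix.transpose_apply]
  unfold KM
  rw [Matrix.of_apply, Matrix.of_apply]
  congr 1
  · by_cases h : i = j
    · rw [h]
    · rw [if_neg h, if_neg (fun h' => h h'.symm)]
  · by_cases h : adj (i : Fin d → ℤ) j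
    · rw [if_pos h, if_pos (adj_symm h)]
    · rw [if_neg h, if_neg (fun h' => h (adj_symm h'))]

end Pool.Agent.Lib.MP_562b47_mp.GD
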