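import Pool.Agent.Lib.MP_562b47_mp.GD.SolB
import Pool.Agent.Lib.MP_562b47_mp.GD.Mul
import Pool.Agent.Lib.MP_562b47_mp.BG.LinA

/-!
# GD-Win: the windows  (`BG/Win.lean` is the case `d = 2`)

`SV m W x = ∑_{y ∈ inn d m, y ~ 1} KI m W x y` (so `w_V = ww 1 * SV` on `inn d m`).

Proof of `win`. `K = KM m Vs`, `e = W - Vs` on `inn d m`, `KM m W = K + diagonal e`. `BG.pert` gives `det ≠ 0` and the
estimate `|v| ≤ 2 n B F` for `(KM m W) v = f`, `|f| ≤ F`. Apply it to the columns of the inverse (`f = e_y`):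
`|KI m W x y| ≤ 2 n B`. Apply it to `v x = ww 1 * SV m W x - ww x`, `x ∈ inn d m` : `(KM m W).mulVec SV` is the
indicator of the neighbours of `1`; and for `x ∈ inn d m`, with `w' = ww` restricted to `inn d m`,
`(KM m W).mulVec w' x = W x ww x - nbs w' x = W x ww x - nbs ww x + [x ~ 1] ww 1`, since `ww = 0`
outside `qi d m` at the neighbours of `qi d m` (they have `|x_i| = m` for some `i`, a node, `ww_node`). Finally
`W x ww x - nbs ww x = (W x - Vs x) ww x + (Vs x ww x - nbs ww x)`, and the last bracket is `0` (`ww_cell` off the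
nodes, `ww_node` and `nbs_node` at the nodes). So `((KM m W).mulVec v) x = - (W x - Vs x) ww x`, modulus at most
`δ pM`.
-/

open Finset

namespace Pool.Agent.Lib.MP_562b47_mp.GD

variable {d : ℕ} {b : ℤ} {z : ℝ}

/-- the response of the inner block to the centre -/
noncomputable def SV (m : ℤ) (W : (Fin d → ℤ) → ℝ) (x : Fin d → ℤ) : ℝ :=
  ∑ y ∈ inn d m, if adj 1 y then KI m W x y else 0

private theorem KM_add (m : ℤ) (Vs W : (Fin d → ℤ) → ℝ) :
    KM m Vs + Matrix.diagonal (fun x : inn d m => W x - Vs x) = KM m W := by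
  ext x y
  by_cases h : x = y
  · subst h
    simp only [KM, Matrix.add_apply, Matrix.of_apply, if_true, Matrix.diagonal_apply_eq]
    ring
  · simp only [KM, Matrix.add_apply, Matrix.of_apply, if_neg h, Matrix.diagonal_apply_ne _ h]
    ring

private theorem nbs_ind (c : ℝ) (x : Fin d → ℤ) :
    nbs (fun y => if y = 1 then c else 0) x = if adj 1 x then c else 0 := by
  have h := sum_adj (R := ℝ) {(1 : Fin d → ℤ)} (fun y => if y = 1 then c else 0)
    (fun y hy => by
      have : y ≠ 1 := by simpa using hy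
      simp [this]) x 1
  rw [one_mul] at h
  rw [← h, Finset.sum_singleton]
  by_cases ha : adj x 1
  · have ha' := adj_symm ha
    simp [ha, ha']
  · have ha' : ¬ adj 1 x := fun h => ha (adj_symm h)
    simp [ha, ha']

private theorem ww_res (hb : 3 ≤ b) (P : Prof d b z) (N : ℕ) (y : Fin d → ℤ)
    (hy : y ∈ qi d (b * N) ∨ ∃ i, y i = b * N ∨ y i = -(b * N)) :
    (if y ∈ inn d (b * N) then ww b z P.p y else 0)
      = ww b z P.p y - (if y = 1 then ww b z P.p 1 else 0) := by
  by_cases h1 : y = 1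
  · subst h1
    have : (1 : Fin d → ℤ) ∉ inn d (b * N) := by simp [inn]
    simp [this]
  · by_cases hq : y ∈ qi d (b * N)
    · have : y ∈ inn d (b * N) := by simp [inn, h1, hq]
      simp [this, h1]
    · have hn : y ∉ inn d (b * N) := fun h => hq (Finset.mem_of_mem_erase h)
      have hnode : node b y := by
        rcases hy with h | ⟨i, h | h⟩
        · exact absurd h hq
        · exact ⟨i, h ▸ Dvd.intro _ rfl⟩
        · exact ⟨i, h ▸ (dvd_neg.mpr (Dvd.intro _ rfl))⟩
      rw [if_neg hn, if_neg h1, ww_node hb P hnode, sub_zero]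

private theorem nbs_res (hb : 3 ≤ b) (P : Prof d b z) (N : ℕ) (x : Fin d → ℤ)
    (hx : x ∈ inn d (b * N)) :
    nbs (fun y => if y ∈ inn d (b * N) then ww b z P.p y else 0) x
      = nbs (ww b z P.p) x - (if adj 1 x then ww b z P.p 1 else 0) := by
  have hq : ∀ i, |x i| < b * N := (mem_inn.mp hx).2
  rw [← nbs_ind (ww b z P.p 1) x]
  have e : ∀ (i : Fin d) (t : ℤ), (t = 1 ∨ t = -1) →
      (if sh x i t ∈ inn d (b * N) then ww b z P.p (sh x i t) else 0)
        = ww b z P.p (sh x i t) - (if sh x i t = 1 then ww b z P.p 1 else 0) := by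
    intro i t ht
    refine ww_res hb P N (sh x i t) ?_
    have hi := abs_lt.mp (hq i)
    by_cases h1 : x i + t = b * N
    · exact Or.inr ⟨i, Or.inl (by rw [sh_same, h1])⟩
    by_cases h2 : x i + t = -(b * N)
    · exact Or.inr ⟨i, Or.inr (by rw [sh_same, h2])⟩
    left
    rw [mem_qi]
    intro j
    by_cases hj : j = i
    · subst hj
      rw [sh_same, abs_lt]
      rcases ht with rfl | rfl <;> constructor <;> omega
    · rw [sh_ne x hj]; exact hq j
  simp only [nbs]
  rw [← Finset.sum_sub_distrib]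
  refine Finset.sum_congr rfl fun i _ => ?_
  rw [e i 1 (Or.inl rfl), e i (-1) (Or.inr rfl)]
  ring

theorem win (hb : 3 ≤ b) (hz : 0 < z) (P : Prof d b z) (pM : ℝ)
    (hpM : ∀ x, |ww b z P.p x| ≤ pM) (N : ℕ) (hN : 1 ≤ N) (Vs : (Fin d → ℤ) → ℝ)
    (hVs : ∀ x, ¬ node b x → Vs x = Ve b P.p x) (B δ : ℝ) (hB : 0 ≤ B) (hδ : 0 ≤ δ)
    (hd : (KM (b * N) Vs).det ≠ 0) (hK : ∀ x y, |(KM (b * N) Vs)⁻¹ x y| ≤ B)
    (hs : (inn d (b * N)).card * B * δ ≤ 1 / 2)
    (W : (Fin d → ℤ) → ℝ) (hW : ∀ x ∈ inn d (b * N), |W x - Vs x| ≤ δ) :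
    (KM (b * N) W).det ≠ 0 ∧
      (∀ x y, |KI (b * N) W x y| ≤ 2 * (inn d (b * N)).card * B) ∧
      ∀ x ∈ inn d (b * N), |ww b z P.p 1 * SV (b * N) W x - ww b z P.p x| ≤
        2 * (inn d (b * N)).card * B * (δ * pM) := by
  have hcard : Fintype.card (inn d (b * N)) = (inn d (b * N)).card := Fintype.card_coe _
  have hpert := BG.pert (KM (b * N) Vs) (fun x : inn d (b * N) => W x - Vs x) B δ hB hδ hd hK
    (fun x => hW x x.2) (by rw [hcard]; exact hs)
  rw [KM_add, hcard] at hpert
  obtain ⟨hdet, hest⟩ := hpert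
  have hU : IsUnit (KM (b * N) W).det := isUnit_iff_ne_zero.mpr hdet
  have hmul : KM (b * N) W * (KM (b * N) W)⁻¹ = 1 := Matrix.mul_nonsing_inv _ hU
  have hnn : (0 : ℝ) ≤ 2 * (inn d (b * N)).card * B := by positivity
  refine ⟨hdet, ?_, ?_⟩
  · intro x y
    unfold KI
    by_cases hx : x ∈ inn d (b * N)
    · by_cases hy : y ∈ inn d (b * N)
      · rw [dif_pos hx, dif_pos hy]
        have := hest (fun i => (KM (b * N) W)⁻¹ i ⟨y, hy⟩) 1 zero_le_one (fun i => by
          have h1 : (KM (b * N) W).mulVec (fun i => (KM (b * N) W)⁻¹ i ⟨y, hy⟩) i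
              = (KM (b * N) W * (KM (b * N) W)⁻¹) i ⟨y, hy⟩ := by
            simp [Matrix.mulVec, Matrix.mul_apply, dotProduct]
          rw [h1, hmul, Matrix.one_apply]
          split_ifs <;> simp) ⟨x, hx⟩
        simpa using this
      · rw [dif_pos hx, dif_neg hy, abs_zero]; exact hnn
    · rw [dif_neg hx, abs_zero]; exact hnn
  · intro x hx
    have hpM0 : 0 ≤ pM := le_trans (abs_nonneg _) (hpM 1)
    -- the indicator
    have hSV : ∀ i : inn d (b * N), SV (b * N) W i
        = ((KM (b * N) W)⁻¹).mulVec (fun j : inn d (b * N) => if adj 1 (j : Fin d → ℤ) then (1 : ℝ) else 0) i := by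
      intro i
      have h1 : ((KM (b * N) W)⁻¹).mulVec
          (fun j : inn d (b * N) => if adj 1 (j : Fin d → ℤ) then (1 : ℝ) else 0) i
          = ∑ j : inn d (b * N), (KM (b * N) W)⁻¹ i j *
            (if adj 1 (j : Fin d → ℤ) then (1 : ℝ) else 0) := rfl
      rw [h1]
      unfold SV
      rw [← Finset.sum_coe_sort (inn d (b * N))]
      refine Finset.sum_congr rfl fun j _ => ?_
      have h2 : KI (b * N) W i j = (KM (b * N) W)⁻¹ i j := by
        unfold KI
        rw [dif_pos i.2, dif_pos j.2]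
      rw [h2]
      by_cases ha : adj 1 (j : Fin d → ℤ)
      · rw [if_pos ha, if_pos ha, mul_one]
      · rw [if_neg ha, if_neg ha, mul_zero]
    have hKSV : (KM (b * N) W).mulVec (fun i : inn d (b * N) => SV (b * N) W i)
        = fun j : inn d (b * N) => if adj 1 (j : Fin d → ℤ) then (1 : ℝ) else 0 := by
      have : (fun i : inn d (b * N) => SV (b * N) W i)
          = ((KM (b * N) W)⁻¹).mulVec (fun j : inn d (b * N) => if adj 1 (j : Fin d → ℤ) then (1 : ℝ) else 0) :=
        funext hSV
      rw [this, Matrix.mulVec_mulVec, hmul, Matrix.one_mulVec]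
    have hKw : ∀ i : inn d (b * N), (KM (b * N) W).mulVec (fun j : inn d (b * N) => ww b z P.p j) i
        = W i * ww b z P.p i - nbs (ww b z P.p) i
          + (if adj 1 (i : Fin d → ℤ) then ww b z P.p 1 else 0) := by
      intro i
      have h1 := KM_mulVec (b * N) W (fun y => if y ∈ inn d (b * N) then ww b z P.p y else 0)
        (fun y hy => if_neg hy) i
      have h2 : (fun j : inn d (b * N) => (fun y => if y ∈ inn d (b * N) then ww b z P.p y else 0) (j : Fin d → ℤ))
          = fun j : inn d (b * N) => ww b z P.p j := by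
        funext j
        exact if_pos j.2
      rw [h2] at h1
      rw [h1, nbs_res hb P N i i.2]
      simp only [if_pos i.2]
      ring
    have hV : ∀ i : inn d (b * N), Vs i * ww b z P.p i = nbs (ww b z P.p) i := by
      intro i
      by_cases hn : node b (i : Fin d → ℤ)
      · rw [ww_node hb P hn, nbs_node hb P hn, mul_zero]
      · rw [hVs i hn, ww_cell hb hz P hn]
    have hfin := hest (fun i : inn d (b * N) => ww b z P.p 1 * SV (b * N) W i - ww b z P.p i)
      (δ * pM) (mul_nonneg hδ hpM0) (fun i => by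
        have h1 : (fun i : inn d (b * N) => ww b z P.p 1 * SV (b * N) W i - ww b z P.p i)
            = (ww b z P.p 1) • (fun i : inn d (b * N) => SV (b * N) W i)
              - fun i : inn d (b * N) => ww b z P.p i := by
          funext j
          simp
        rw [h1, Matrix.mulVec_sub, Matrix.mulVec_smul, Pi.sub_apply, Pi.smul_apply, hKSV, hKw i]
        have h2 : (ww b z P.p 1) • (if adj 1 (i : Fin d → ℤ) then (1 : ℝ) else 0)
            - (W i * ww b z P.p i - nbs (ww b z P.p) i
              + (if adj 1 (i : Fin d → ℤ) then ww b z P.p 1 else 0))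
            = - ((W i - Vs i) * ww b z P.p i) := by
          rw [← hV i]
          split_ifs <;> simp <;> ring
        rw [h2, abs_neg, abs_mul]
        exact mul_le_mul (hW i i.2) (hpM i) (abs_nonneg _) hδ) ⟨x, hx⟩
    simpa using hfin

end Pool.Agent.Lib.MP_562b47_mp.GD
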