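import Pool.Agent.Lib.MP_562b47_mp.GD.ExP
import Pool.Agent.Lib.MP_562b47_mp.GD.RealN
import Pool.Agent.Lib.MP_562b47_mp.GD.Win

/-!
# GD-Gad: the gadget for every energy in every dimension  (`BG/Gad.lean` is the case `d = 2`)

`ph0 m W x = - ∑_{y ∈ inn d m, y ~ x} SV m W y` (coupling to the port site `x`), `ze0 m W = ∑_{y ∈ inn d m, y ~ 1}
SV m W y` (`= ze + 2 d - E`).

Proof. Choose `v ∈ (-2d, 2d)` with `|Es - 2d + v| < c` (possible since `-c < Es < 4d + c`: project `2d - Es` to a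
compact subinterval of `(-2d, 2d)`). `d' := c - |Es - 2d + v| > 0`, `ρ := d'/16`, `r := d'/32`, `δ0 := d'/16`.
`exists_prof` with `v` and `ρ/4` gives `b, z, P, CM`; `t1 = v - ρ/4`, `t2 = v + ρ/4`; `real_nodes` gives `C₁`; `ww_lower`,
`ww_upper`, `ww_port`. For `N ≥ 1`: `n = card (inn d (bN)) ≤ (2bN)^d`, `B = exp (C₁ N^{d+1})`. With `C` large,
`δ = exp (-C N^{d+1})` satisfies `n B δ ≤ 1/2` and `2 n B δ pM ≤ θ z^N`, `θ` as small as wanted (all constants
independent of `N`). `win` gives the rest: `KI` bound `2 n B ≤ exp (C N^{d+1})`;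
`ze0 = ∑_{y ~ 1} SV y` (the `2 d` neighbours of `1` belong to `inn d (bN)`, `b ≥ 3`; the neighbours `sh 1 i (-1)` are
nodes, they count as well) is within `2 d · (2 n B δ pM)/|p 1|` of `(nbs ww 1)/ww 1 = Ve 1` (`ww_cell`), and
`|Ve 1 - v| < ρ/4`;
for a port site `x` (`|x_i| = bN` for some `i`, all `≤ bN`): the neighbours `y` of `x` in `inn d (bN)` have
`|y_i| ≥ bN - 1` for some `i`: `|ph0| ≤ 2 d (pM z^(N-1) + θ z^N)/|p 1|`, so the sum over the at most
`(2 b N + 1)^d` port sites of the squares is at most `C N^d z^{2N}`; for `x = update 1 i (bN)` (any `i`, `d ≥ 1`)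
the only neighbour in `inn` is `update 1 i (bN - 1)` (it is not `1` because `bN - 1 ≥ 2`),
`|ph0| ≥ (z^N |p 1| - θ z^N)/|p 1| ≥ z^N/2`.
-/

open Finset

namespace Pool.Agent.Lib.MP_562b47_mp.GD

variable {d : ℕ}

/-- the port sites -/
noncomputable def prt (d : ℕ) (m : ℤ) : Finset (Fin d → ℤ) :=
  (Fintype.piFinset fun _ => Icc (-m) m) \ qi d m

/-- the coupling to a port site -/
noncomputable def ph0 (m : ℤ) (W : (Fin d → ℤ) → ℝ) (x : Fin d → ℤ) : ℝ :=
  -∑ y ∈ inn d m, if adj x y then SV m W y else 0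

/-- the resonant value of the effective diagonal at the centre -/
noncomputable def ze0 (m : ℤ) (W : (Fin d → ℤ) → ℝ) : ℝ :=
  ∑ y ∈ inn d m, if adj 1 y then SV m W y else 0

private theorem sum2d (T : Finset (Fin d → ℤ)) (f : (Fin d → ℤ) → ℝ) (x : Fin d → ℤ) :
    ∑ y ∈ T, (if adj x y then f y else 0) = nbs (fun y => if y ∈ T then f y else 0) x := by
  have h := sum_adj (R := ℝ) T (fun y => if y ∈ T then f y else 0)
    (fun y hy => by simp [hy]) x 1
  rw [one_mul] at h
  rw [← h]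
  refine Finset.sum_congr rfl fun y hy => ?_
  by_cases ha : adj x y
  · simp [ha, hy]
  · simp [ha]

private theorem mem_prt {m : ℤ} {x : Fin d → ℤ} :
    x ∈ prt d m ↔ (∀ i, -m ≤ x i ∧ x i ≤ m) ∧ x ∉ qi d m := by
  simp [prt, Fintype.mem_piFinset, Finset.mem_Icc]

private theorem card_prt {b : ℤ} (hb : 3 ≤ b) {N : ℕ} (hN : 1 ≤ N) :
    ((prt d (b * N)).card : ℝ) ≤ (2 * (b : ℝ) + 1) ^ d * (N : ℝ) ^ d := by
  have hN' : (1 : ℤ) ≤ N := by exact_mod_cast hN
  have hm : (3 : ℤ) ≤ b * N := by nlinarith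
  have h1 : (prt d (b * N)).card ≤
      (Fintype.piFinset fun _ : Fin d => Icc (-(b * N)) (b * N)).card :=
    Finset.card_le_card Finset.sdiff_subset
  have h2 : (Fintype.piFinset fun _ : Fin d => Icc (-(b * N)) (b * N)).card =
      (b * N + 1 - -(b * N)).toNat ^ d := by
    simp
  have h3 : (((b * N + 1 - -(b * N)).toNat : ℕ) : ℝ) ≤ (2 * (b : ℝ) + 1) * (N : ℝ) := by
    have h4 : (((b * N + 1 - -(b * N)).toNat : ℤ) : ℝ) ≤ (((2 * b + 1) * N : ℤ) : ℝ) := by
      rw [Int.cast_le, Int.toNat_of_nonneg (by linarith)]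
      nlinarith
    calc (((b * N + 1 - -(b * N)).toNat : ℕ) : ℝ)
        = (((b * N + 1 - -(b * N)).toNat : ℤ) : ℝ) := by norm_cast
      _ ≤ (((2 * b + 1) * N : ℤ) : ℝ) := h4
      _ = (2 * (b : ℝ) + 1) * (N : ℝ) := by push_cast; ring
  calc ((prt d (b * N)).card : ℝ)
      ≤ ((Fintype.piFinset fun _ : Fin d => Icc (-(b * N)) (b * N)).card : ℝ) := by
        exact_mod_cast h1
    _ = (((b * N + 1 - -(b * N)).toNat : ℕ) : ℝ) ^ d := by rw [h2]; push_cast; rfl
    _ ≤ ((2 * (b : ℝ) + 1) * (N : ℝ)) ^ d := pow_le_pow_left₀ (Nat.cast_nonneg _) h3 d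
    _ = (2 * (b : ℝ) + 1) ^ d * (N : ℝ) ^ d := mul_pow _ _ _

private theorem ne_node {b : ℤ} (hb : 3 ≤ b) : ¬ node b (1 : Fin d → ℤ) := by
  unfold node
  rintro ⟨i, h⟩
  have := Int.le_of_dvd one_pos h
  linarith

private theorem abs_nbs_le (f : (Fin d → ℤ) → ℝ) (x : Fin d → ℤ) (K : ℝ)
    (h : ∀ y, adj x y → |f y| ≤ K) : |nbs f x| ≤ 2 * d * K := by
  unfold nbs
  calc |∑ i, (f (sh x i 1) + f (sh x i (-1)))|
      ≤ ∑ i, |f (sh x i 1) + f (sh x i (-1))| := Finset.abs_sum_le_sum_abs _ _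
    _ ≤ ∑ _i : Fin d, (K + K) := Finset.sum_le_sum fun i _ =>
        (abs_add_le _ _).trans (add_le_add (h _ ⟨i, Or.inl rfl⟩) (h _ ⟨i, Or.inr rfl⟩))
    _ = 2 * d * K := by
        rw [Finset.sum_const, nsmul_eq_mul, Finset.card_univ, Fintype.card_fin]
        ring

private theorem nbs_congr (f g : (Fin d → ℤ) → ℝ) (x : Fin d → ℤ)
    (h : ∀ y, adj x y → f y = g y) : nbs f x = nbs g x := by
  unfold nbs
  refine Finset.sum_congr rfl fun i _ => ?_
  rw [h _ ⟨i, Or.inl rfl⟩, h _ ⟨i, Or.inr rfl⟩]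

private theorem nbs_lin (f g : (Fin d → ℤ) → ℝ) (x : Fin d → ℤ) (a : ℝ) :
    a * nbs f x - nbs g x = nbs (fun y => a * f y - g y) x := by
  unfold nbs
  rw [Finset.mul_sum, ← Finset.sum_sub_distrib]
  refine Finset.sum_congr rfl fun i _ => ?_
  ring

private theorem adj_one {m : ℤ} (hm : 3 ≤ m) {y : Fin d → ℤ} (h : adj 1 y) : y ∈ inn d m := by
  rw [mem_inn]
  obtain ⟨i, h | h⟩ := h
  · refine ⟨fun h1 => ?_, fun j => ?_⟩
    · have := congrFun (h.symm.trans h1) i
      rw [sh_same] at this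
      simp at this
    · rw [h]
      by_cases hj : j = i
      · subst hj
        rw [sh_same, Pi.one_apply, abs_lt]
        omega
      · rw [sh_ne _ hj, Pi.one_apply, abs_lt]
        omega
  · refine ⟨fun h1 => ?_, fun j => ?_⟩
    · have := congrFun (h.symm.trans h1) i
      rw [sh_same] at this
      simp at this
    · rw [h]
      by_cases hj : j = i
      · subst hj
        rw [sh_same, Pi.one_apply, abs_lt]
        omega
      · rw [sh_ne _ hj, Pi.one_apply, abs_lt]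
        omega

private theorem adj_coord {x y : Fin d → ℤ} (h : adj x y) (i : Fin d) :
    |x i| - 1 ≤ |y i| := by
  obtain ⟨j, h | h⟩ := h
  · rw [h]
    by_cases hj : i = j
    · subst hj
      rw [sh_same]
      have := abs_sub_abs_le_abs_sub (x i) (x i + 1)
      rw [show x i - (x i + 1) = -1 by ring, abs_neg, abs_one] at this
      linarith
    · rw [sh_ne _ hj]
      linarith
  · rw [h]
    by_cases hj : i = j
    · subst hj
      rw [sh_same]
      have := abs_sub_abs_le_abs_sub (x i) (x i + -1)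
      rw [show x i - (x i + -1) = 1 by ring, abs_one] at this
      linarith
    · rw [sh_ne _ hj]
      linarith

theorem gadget (hd : 1 ≤ d) {c Es : ℝ} (hc : 0 < c) (h1 : -c < Es) (h2 : Es < 4 * d + c) :
    ∃ (b : ℤ) (z v ρ r δ0 C : ℝ), 3 ≤ b ∧ 0 < z ∧ z < 1 ∧ 0 < ρ ∧ 0 < r ∧ 0 < δ0 ∧ 1 ≤ C ∧
      (∀ E : ℝ, |E - Es| < δ0 → |E - 2 * d + v| + ρ + 6 * r ≤ c) ∧
      ∀ N : ℕ, 1 ≤ N → ∃ Vs : (Fin d → ℤ) → ℝ, (∀ x, |Vs x - v| ≤ ρ / 2) ∧
        ∀ W : (Fin d → ℤ) → ℝ,
          (∀ x ∈ inn d (b * N), |W x - Vs x| ≤ Real.exp (-(C * (N : ℝ) ^ (d + 1)))) →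
          (KM (b * N) W).det ≠ 0 ∧
          (∀ x y, |KI (b * N) W x y| ≤ Real.exp (C * (N : ℝ) ^ (d + 1))) ∧
          |ze0 (b * N) W - v| ≤ ρ ∧
          z ^ (2 * N) / C ≤ ∑ x ∈ prt d (b * N), ph0 (b * N) W x ^ 2 ∧
          ∑ x ∈ prt d (b * N), ph0 (b * N) W x ^ 2 ≤ C * (N : ℝ) ^ d * z ^ (2 * N) := by
  have hD : (1 : ℝ) ≤ (d : ℝ) := by exact_mod_cast hd
  have hD0 : (0 : ℝ) < (d : ℝ) := by linarith
  -- choice of v
  obtain ⟨v, hv1, hv2, hvc⟩ : ∃ v : ℝ, -(2 * (d : ℝ)) < v ∧ v < 2 * (d : ℝ) ∧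
      |Es - 2 * d + v| < c := by
    have h4c : 0 < 2 * (d : ℝ) + c := by linarith
    refine ⟨2 * d * (2 * d - Es) / (2 * d + c), ?_, ?_, ?_⟩
    · rw [lt_div_iff₀ h4c]
      nlinarith [mul_pos hD0 (by linarith : (0 : ℝ) < 4 * d + c - Es)]
    · rw [div_lt_iff₀ h4c]
      nlinarith [mul_pos hD0 (by linarith : (0 : ℝ) < Es + c)]
    · have he : Es - 2 * d + 2 * d * (2 * d - Es) / (2 * d + c) =
          (Es - 2 * d) * c / (2 * d + c) := by
        field_simp
        ring
      rw [he, abs_lt]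
      constructor
      · rw [lt_div_iff₀ h4c]
        nlinarith [mul_pos hc (by linarith : (0 : ℝ) < Es + c)]
      · rw [div_lt_iff₀ h4c]
        nlinarith [mul_pos hc (by linarith : (0 : ℝ) < 4 * d + c - Es)]
  set e : ℝ := c - |Es - 2 * d + v| with he
  have he0 : 0 < e := by rw [he]; linarith
  set ρ : ℝ := e / 16 with hρ
  have hρ0 : 0 < ρ := by rw [hρ]; linarith
  obtain ⟨b, z, P, CM, hb, hz, hz1, hVp, hCM, hCE⟩ :=
    exists_prof hd v hv1 hv2 (ρ / 4) (by linarith)
  obtain ⟨C₁, hC1, hreal⟩ := real_nodes hb hz hz1 P hCM hCE (v - ρ / 4) (v + ρ / 4) (by linarith)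
  obtain ⟨pM, hpM1, hpM, hup⟩ := ww_upper hb hz hz1 P
  have hb0 : (0 : ℝ) < b := by exact_mod_cast (by linarith : (0 : ℤ) < b)
  have hp11 : P.p 1 ≠ 0 := by
    apply P.ne
    rw [mem_cl]
    intro i
    rw [Pi.one_apply]
    omega
  set q : ℝ := |P.p 1| with hq
  have hq0 : 0 < q := abs_pos.2 hp11
  set θ : ℝ := min 1 (min (ρ * q / (4 * d)) (q / 2)) with hθ
  have hθ0 : 0 < θ := by
    rw [hθ]
    refine lt_min one_pos (lt_min ?_ ?_) <;> positivity
  have hθ1 : θ ≤ 1 := min_le_left _ _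
  have hθ2 : θ ≤ ρ * q / (4 * d) := (min_le_right _ _).trans (min_le_left _ _)
  have hθ3 : θ ≤ q / 2 := (min_le_right _ _).trans (min_le_right _ _)
  have hθ4 : 2 * d * θ ≤ q * (ρ / 2) := by
    rw [le_div_iff₀ (by positivity)] at hθ2
    linarith
  set lam : ℝ := Real.log (pM / θ) with hlam
  have hlam0 : 0 ≤ lam := by
    apply Real.log_nonneg
    rw [le_div_iff₀ hθ0]
    linarith
  set mu : ℝ := -Real.log z with hmu
  have hmu0 : 0 ≤ mu := by
    have := Real.log_neg hz hz1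
    rw [hmu]; linarith
  set A0 : ℝ := 2 * pM / (q * z) with hA0d
  have hA00 : 0 ≤ A0 := by rw [hA0d]; positivity
  set A : ℝ := 2 * d * A0 with hA
  have hA0 : 0 ≤ A := by rw [hA]; positivity
  set K : ℝ := 2 * (2 * (b : ℝ)) ^ d with hK
  have hK0 : 0 ≤ K := by rw [hK]; positivity
  set L : ℝ := (2 * (b : ℝ) + 1) ^ d * A ^ 2 with hL
  have hL0 : 0 ≤ L := by rw [hL]; positivity
  refine ⟨b, z, v, ρ, e / 32, e / 16, C₁ + K + lam + mu + 4 + L,
    hb, hz, hz1, hρ0, by linarith, by linarith, by linarith, ?_, ?_⟩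
  · intro E hE
    have h3 : |E - 2 * d + v| ≤ |E - Es| + |Es - 2 * d + v| := by
      have : E - 2 * d + v = (E - Es) + (Es - 2 * d + v) := by ring
      rw [this]
      exact abs_add_le _ _
    rw [hρ]
    linarith
  set C : ℝ := C₁ + K + lam + mu + 4 + L with hC
  intro N hN
  obtain ⟨Vs, hVs1, hVs2, hdet, hinv⟩ := hreal N hN
  have hNr : (1 : ℝ) ≤ N := by exact_mod_cast hN
  set T : ℝ := (N : ℝ) ^ (d + 1) with hT
  have hN3 : (N : ℝ) ≤ T := by
    rw [hT]
    calc (N : ℝ) = (N : ℝ) ^ 1 := (pow_one _).symm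
      _ ≤ (N : ℝ) ^ (d + 1) := pow_le_pow_right₀ hNr (by omega)
  have hN3' : (1 : ℝ) ≤ T := one_le_pow₀ hNr
  have hN23 : (N : ℝ) ^ d ≤ T := pow_le_pow_right₀ hNr (by omega)
  have hT0 : 0 ≤ T := by linarith
  have hVe : ∀ x, ¬ node b x → |Ve b P.p x - v| < ρ / 4 := fun x hx => hVp _ (rr_mem hb hx)
  refine ⟨Vs, ?_, ?_⟩
  · intro x
    by_cases hx : node b x
    · rcases hVs2 x hx with h | h
      · rw [h, show v - ρ / 4 - v = -(ρ / 4) by ring, abs_neg, abs_of_pos (by linarith)]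
        linarith
      · rw [h, show v + ρ / 4 - v = ρ / 4 by ring, abs_of_pos (by linarith)]
        linarith
    · rw [hVs1 x hx]
      linarith [hVe x hx]
  intro W hW
  have hNi : (1 : ℤ) ≤ N := by exact_mod_cast hN
  have hm3 : (3 : ℤ) ≤ b * N := by nlinarith
  set n : ℝ := ((inn d (b * N)).card : ℝ) with hn
  have hn0 : 0 ≤ n := by rw [hn]; positivity
  have hnb : n ≤ (2 * (b : ℝ)) ^ d * (N : ℝ) ^ d := by
    have := card_inn_le (d := d) (m := b * N) (by linarith)
    rw [← mul_pow]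
    refine this.trans (le_of_eq ?_)
    push_cast
    ring
  have hBpos : 0 < Real.exp (C₁ * T) := Real.exp_pos _
  have h8 : 2 * n ≤ Real.exp (K * T) := by
    have h9 : 2 * n ≤ K * T := by
      have : (2 * (b : ℝ)) ^ d * (N : ℝ) ^ d ≤ (2 * (b : ℝ)) ^ d * T :=
        mul_le_mul_of_nonneg_left hN23 (by positivity)
      rw [hK]
      linarith
    linarith [Real.add_one_le_exp (K * T)]
  have hexp1 : Real.exp (K * T) * Real.exp (C₁ * T) *
      Real.exp (-(C * T)) ≤ Real.exp (-((lam + mu) * T)) := by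
    rw [← Real.exp_add, ← Real.exp_add]
    apply Real.exp_le_exp.2
    rw [hC]
    nlinarith [mul_nonneg (by linarith : (0 : ℝ) ≤ 4 + L) hT0]
  have hnBδ : n * Real.exp (C₁ * T) * Real.exp (-(C * T)) ≤
      Real.exp (-((lam + mu) * T)) / 2 := by
    have h9 : 2 * n * Real.exp (C₁ * T) * Real.exp (-(C * T)) ≤
        Real.exp (K * T) * Real.exp (C₁ * T) * Real.exp (-(C * T)) := by gcongr
    linarith
  have hsmall : Real.exp (-((lam + mu) * T)) ≤ θ / pM * z ^ N := by
    have h9 : Real.exp (-lam) = θ / pM := by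
      rw [hlam, Real.exp_neg, Real.exp_log (by positivity), inv_div]
    have h10 : Real.exp (-(mu * N)) = z ^ N := by
      rw [hmu, show -(-Real.log z * N) = N * Real.log z by ring, Real.exp_nat_mul,
        Real.exp_log hz]
    rw [← h9, ← h10, ← Real.exp_add]
    apply Real.exp_le_exp.2
    nlinarith [mul_le_mul_of_nonneg_left hN3 hmu0, mul_le_mul_of_nonneg_left hN3' hlam0]
  have hs : n * Real.exp (C₁ * T) * Real.exp (-(C * T)) ≤ 1 / 2 := by
    have : Real.exp (-((lam + mu) * T)) ≤ 1 := by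
      apply Real.exp_le_one_iff.2
      have : 0 ≤ (lam + mu) * T := by positivity
      linarith
    linarith
  obtain ⟨hd1, hd2, hd3⟩ := win hb hz P pM hpM N hN Vs hVs1 (Real.exp (C₁ * T))
    (Real.exp (-(C * T))) hBpos.le (Real.exp_pos _).le hdet hinv hs W hW
  have hpM0 : 0 < pM := by linarith
  have heps : 2 * n * Real.exp (C₁ * T) * (Real.exp (-(C * T)) * pM) ≤ θ * z ^ N := by
    have h9 : 2 * n * Real.exp (C₁ * T) * (Real.exp (-(C * T)) * pM) =
        2 * (n * Real.exp (C₁ * T) * Real.exp (-(C * T))) * pM := by ring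
    rw [h9]
    calc 2 * (n * Real.exp (C₁ * T) * Real.exp (-(C * T))) * pM
        ≤ 2 * ((θ / pM * z ^ N) / 2) * pM := by
          gcongr
          exact hnBδ.trans (by linarith)
      _ = θ * z ^ N := by field_simp
  have hww1 : ww b z P.p 1 = P.p 1 := ww_centre hb P
  -- the basic estimate
  have hSV : ∀ x ∈ inn d (b * N), |P.p 1 * SV (b * N) W x - ww b z P.p x| ≤ θ * z ^ N := by
    intro x hx
    have := hd3 x hx
    rw [hww1] at this
    exact this.trans heps
  have hzN : z ^ N ≤ 1 := pow_le_one₀ hz.le hz1.le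
  have hzN0 : 0 < z ^ N := pow_pos hz N
  refine ⟨hd1, ?_, ?_, ?_, ?_⟩
  · intro x y
    refine (hd2 x y).trans ?_
    calc 2 * n * Real.exp (C₁ * T)
        ≤ Real.exp (K * T) * Real.exp (C₁ * T) := by gcongr
      _ = Real.exp ((K + C₁) * T) := by
          rw [← Real.exp_add]; ring_nf
      _ ≤ Real.exp (C * T) := by
          apply Real.exp_le_exp.2
          apply mul_le_mul_of_nonneg_right _ hT0
          rw [hC]
          linarith
  · -- the resonant value
    have hnb4 : ze0 (b * N) W = nbs (SV (b * N) W) 1 := by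
      unfold ze0
      rw [sum2d]
      exact nbs_congr _ _ _ fun y hy => if_pos (adj_one hm3 hy)
    have hcell := ww_cell hb hz P (ne_node (d := d) hb)
    rw [hww1] at hcell
    have h5 : |P.p 1 * ze0 (b * N) W - Ve b P.p 1 * P.p 1| ≤ 2 * d * (θ * z ^ N) := by
      rw [hnb4, hcell, nbs_lin]
      exact abs_nbs_le _ _ _ fun y hy => hSV y (adj_one hm3 hy)
    have h6 : |ze0 (b * N) W - Ve b P.p 1| ≤ ρ / 2 := by
      have h7 : P.p 1 * ze0 (b * N) W - Ve b P.p 1 * P.p 1 =
          P.p 1 * (ze0 (b * N) W - Ve b P.p 1) := by ring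
      rw [h7, abs_mul, ← hq] at h5
      have h8 : q * |ze0 (b * N) W - Ve b P.p 1| ≤ q * (ρ / 2) := by
        calc q * |ze0 (b * N) W - Ve b P.p 1| ≤ 2 * d * (θ * z ^ N) := h5
          _ ≤ 2 * d * (θ * 1) := by gcongr
          _ ≤ q * (ρ / 2) := by linarith
      exact le_of_mul_le_mul_left h8 hq0
    have h7 := hVe 1 (ne_node hb)
    have h8 : ze0 (b * N) W - v = (ze0 (b * N) W - Ve b P.p 1) + (Ve b P.p 1 - v) := by
      ring
    rw [h8]
    refine (abs_add_le _ _).trans ?_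
    linarith
  · -- lower bound of the coupling
    have hd' : 0 < d := hd
    set i0 : Fin d := ⟨0, hd'⟩ with hi0
    set x0 : Fin d → ℤ := Function.update 1 i0 (b * N) with hx0d
    set y0 : Fin d → ℤ := Function.update 1 i0 (b * N - 1) with hy0d
    have hx0i : x0 i0 = b * N := by rw [hx0d]; simp
    have hx0j : ∀ j, j ≠ i0 → x0 j = 1 := by
      intro j hj
      rw [hx0d, Function.update_of_ne hj, Pi.one_apply]
    have hy0i : y0 i0 = b * N - 1 := by rw [hy0d]; simp
    have hy0j : ∀ j, j ≠ i0 → y0 j = 1 := by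
      intro j hj
      rw [hy0d, Function.update_of_ne hj, Pi.one_apply]
    have hx0 : x0 ∈ prt d (b * N) := by
      rw [mem_prt]
      refine ⟨fun j => ?_, fun h => ?_⟩
      · by_cases hj : j = i0
        · rw [hj, hx0i]; omega
        · rw [hx0j j hj]; omega
      · have := mem_qi.1 h i0
        rw [hx0i, abs_lt] at this
        omega
    have m2 : y0 ∈ inn d (b * N) := by
      rw [mem_inn]
      refine ⟨fun h => ?_, fun j => ?_⟩
      · have := congrFun h i0
        rw [hy0i, Pi.one_apply] at this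
        omega
      · by_cases hj : j = i0
        · rw [hj, hy0i, abs_lt]; omega
        · rw [hy0j j hj, abs_lt]; omega
    have hout : ∀ y : Fin d → ℤ, b * N ≤ y i0 → y ∉ inn d (b * N) := by
      intro y hy h
      have := (mem_inn.1 h).2 i0
      rw [abs_lt] at this
      omega
    have hph : ph0 (b * N) W x0 = -SV (b * N) W y0 := by
      unfold ph0
      rw [sum2d]
      unfold nbs
      congr 1
      rw [Finset.sum_eq_single i0]
      · have hy : sh x0 i0 (-1) = y0 := by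
          funext j
          by_cases hj : j = i0
          · rw [hj, sh_same, hx0i, hy0i]; ring
          · rw [sh_ne _ hj, hx0j j hj, hy0j j hj]
        have hn1 : sh x0 i0 1 ∉ inn d (b * N) := hout _ (by rw [sh_same, hx0i]; omega)
        simp only [hy]
        rw [if_neg hn1, if_pos m2, zero_add]
      · intro j _ hj
        have hj' : i0 ≠ j := fun h => hj h.symm
        have hn1 : sh x0 j 1 ∉ inn d (b * N) := hout _ (by rw [sh_ne _ hj', hx0i])
        have hn2 : sh x0 j (-1) ∉ inn d (b * N) := hout _ (by rw [sh_ne _ hj', hx0i])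
        simp only
        rw [if_neg hn1, if_neg hn2, add_zero]
      · intro h
        exact absurd (Finset.mem_univ _) h
    have e1 := hSV _ m2
    have e2 := ww_port hb hz P N hN i0
    rw [← hq, ← hy0d] at e2
    have h5 : z ^ N / 2 ≤ |SV (b * N) W y0| := by
      have h6 : |ww b z P.p y0| ≤ |P.p 1 * SV (b * N) W y0| + θ * z ^ N := by
        have : ww b z P.p y0 = P.p 1 * SV (b * N) W y0 -
            (P.p 1 * SV (b * N) W y0 - ww b z P.p y0) := by ring
        rw [this]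
        refine (abs_sub _ _).trans ?_
        linarith
      rw [e2, abs_mul, ← hq] at h6
      have h7 : θ * z ^ N ≤ q / 2 * z ^ N := by gcongr
      have h8 : q * (z ^ N / 2) ≤ q * |SV (b * N) W y0| := by linarith
      exact le_of_mul_le_mul_left h8 hq0
    have h6 : z ^ (2 * N) / 4 ≤ ph0 (b * N) W x0 ^ 2 := by
      rw [hph, neg_sq, ← sq_abs (SV (b * N) W y0)]
      calc z ^ (2 * N) / 4 = (z ^ N / 2) ^ 2 := by rw [div_pow, ← pow_mul, mul_comm N 2]; norm_num
        _ ≤ _ := pow_le_pow_left₀ (by positivity) h5 2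
    have h7 : ph0 (b * N) W x0 ^ 2 ≤ ∑ x ∈ prt d (b * N), ph0 (b * N) W x ^ 2 :=
      Finset.single_le_sum (f := fun x => ph0 (b * N) W x ^ 2) (fun x _ => sq_nonneg _) hx0
    refine le_trans ?_ (h6.trans h7)
    have hC4 : 4 ≤ C := by
      rw [hC]
      linarith
    exact div_le_div_of_nonneg_left (by positivity) (by norm_num) hC4
  · -- upper bound of the coupling
    have hAbd : ∀ y ∈ inn d (b * N), (∃ i, b * N - 1 ≤ |y i|) →
        |SV (b * N) W y| ≤ A0 * z ^ N := by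
      intro y hy hy2
      have e1 := hSV y hy
      have e2 := hup N hN y hy2
      have hzz : z ^ N = z * z ^ (N - 1) := by
        rw [← pow_succ', Nat.sub_add_cancel hN]
      have hzp : 0 < z ^ (N - 1) := pow_pos hz _
      have h6 : |P.p 1 * SV (b * N) W y| ≤ 2 * pM * z ^ (N - 1) := by
        have : P.p 1 * SV (b * N) W y =
            (P.p 1 * SV (b * N) W y - ww b z P.p y) + ww b z P.p y := by ring
        rw [this]
        refine (abs_add_le _ _).trans ?_
        have h7 : θ * z ^ N ≤ pM * z ^ (N - 1) := by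
          rw [hzz]
          have : θ * z ≤ pM := by nlinarith
          nlinarith
        linarith
      rw [abs_mul, ← hq] at h6
      have h8 : q * |SV (b * N) W y| ≤ q * (A0 * z ^ N) := by
        refine h6.trans (le_of_eq ?_)
        rw [hA0d, hzz]
        field_simp
      exact le_of_mul_le_mul_left h8 hq0
    have hph : ∀ x ∈ prt d (b * N), ph0 (b * N) W x ^ 2 ≤ A ^ 2 * z ^ (2 * N) := by
      intro x hx
      have hx' := (mem_prt.1 hx).2
      rw [mem_qi] at hx'
      push Not at hx'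
      obtain ⟨i, hi⟩ := hx'
      have habs : |ph0 (b * N) W x| ≤ A * z ^ N := by
        unfold ph0
        rw [abs_neg, sum2d]
        refine (abs_nbs_le _ _ (A0 * z ^ N) fun y hy => ?_).trans (le_of_eq ?_)
        · split_ifs with hy2
          · exact hAbd y hy2 ⟨i, by linarith [adj_coord hy i]⟩
          · rw [abs_zero]
            positivity
        · rw [hA]; ring
      calc ph0 (b * N) W x ^ 2 = |ph0 (b * N) W x| ^ 2 := (sq_abs _).symm
        _ ≤ (A * z ^ N) ^ 2 := pow_le_pow_left₀ (abs_nonneg _) habs 2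
        _ = A ^ 2 * z ^ (2 * N) := by rw [mul_pow, ← pow_mul, mul_comm N 2]
    calc ∑ x ∈ prt d (b * N), ph0 (b * N) W x ^ 2
        ≤ ∑ _x ∈ prt d (b * N), A ^ 2 * z ^ (2 * N) := Finset.sum_le_sum hph
      _ = ((prt d (b * N)).card : ℝ) * (A ^ 2 * z ^ (2 * N)) := by
          rw [Finset.sum_const, nsmul_eq_mul]
      _ ≤ ((2 * (b : ℝ) + 1) ^ d * (N : ℝ) ^ d) * (A ^ 2 * z ^ (2 * N)) := by
          gcongr
          exact card_prt hb hN
      _ = L * (N : ℝ) ^ d * z ^ (2 * N) := by rw [hL]; ring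
      _ ≤ C * (N : ℝ) ^ d * z ^ (2 * N) := by
          gcongr
          rw [hC]
          linarith

end Pool.Agent.Lib.MP_562b47_mp.GD
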