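import Pool.Agent.Lib.MP_562b47_mp.GD.Defs

/-!
# GD-Sh: coordinates of the neighbours, membership in the boxes

All statements are immediate from `Function.update` and `Fintype.mem_piFinset`.
-/

open Finset

namespace Pool.Agent.Lib.MP_562b47_mp.GD

variable {d : ℕ}

theorem sh_same (x : Fin d → ℤ) (i : Fin d) (t : ℤ) : sh x i t i = x i + t := by
  simp [sh]

theorem sh_ne (x : Fin d → ℤ) {i j : Fin d} (h : j ≠ i) (t : ℤ) : sh x i t j = x j := by
  simp [sh, Function.update_of_ne h]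

theorem sh_sh (x : Fin d → ℤ) (i : Fin d) (s t : ℤ) : sh (sh x i s) i t = sh x i (s + t) := by
  simp [sh, add_assoc]

theorem sh_zero (x : Fin d → ℤ) (i : Fin d) : sh x i 0 = x := by
  simp [sh]

theorem sh_inj (x y : Fin d → ℤ) (i : Fin d) (t : ℤ) (h : sh x i t = sh y i t) : x = y := by
  have := congrArg (fun w => sh w i (-t)) h
  simpa [sh_sh, sh_zero] using this

/-- the `2 d` neighbours of a point are different -/
theorem sh_eq_iff (x : Fin d → ℤ) (i j : Fin d) (s t : ℤ) (hs : s ≠ 0) (ht : t ≠ 0) :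
    sh x i s = sh x j t ↔ i = j ∧ s = t := by
  constructor
  · intro h
    by_cases hij : i = j
    · subst hij
      have := congrFun h i
      rw [sh_same, sh_same] at this
      exact ⟨rfl, by omega⟩
    · exfalso
      have := congrFun h i
      rw [sh_same, sh_ne x hij] at this
      omega
  · rintro ⟨rfl, rfl⟩; rfl

theorem mem_cl {b : ℤ} {x : Fin d → ℤ} : x ∈ cl d b ↔ ∀ i, 1 ≤ x i ∧ x i ≤ b - 1 := by
  simp [cl]

theorem mem_ci {b : ℤ} {x : Fin d → ℤ} :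
    x ∈ ci d b ↔ x ≠ 1 ∧ ∀ i, 1 ≤ x i ∧ x i ≤ b - 1 := by
  simp [ci, mem_cl]

theorem mem_qi {m : ℤ} {x : Fin d → ℤ} : x ∈ qi d m ↔ ∀ i, |x i| < m := by
  simp only [qi, Fintype.mem_piFinset, mem_Icc]
  refine forall_congr' fun i => ?_
  rw [abs_lt]
  omega

theorem mem_inn {m : ℤ} {x : Fin d → ℤ} : x ∈ inn d m ↔ x ≠ 1 ∧ ∀ i, |x i| < m := by
  simp [inn, mem_qi]

theorem card_qi_le {m : ℤ} (hm : 0 ≤ m) : ((qi d m).card : ℝ) ≤ (2 * (m : ℝ)) ^ d := by
  have h : (qi d m).card = (m - 1 + 1 - -(m - 1)).toNat ^ d := by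
    simp [qi]
  rw [h, Nat.cast_pow]
  refine pow_le_pow_left₀ (Nat.cast_nonneg _) ?_ d
  have h2 : (((m - 1 + 1 - -(m - 1)).toNat : ℤ) : ℝ) ≤ ((2 * m : ℤ) : ℝ) := by
    rw [Int.cast_le]
    omega
  calc (((m - 1 + 1 - -(m - 1)).toNat : ℕ) : ℝ)
      = (((m - 1 + 1 - -(m - 1)).toNat : ℤ) : ℝ) := by norm_cast
    _ ≤ ((2 * m : ℤ) : ℝ) := h2
    _ = 2 * (m : ℝ) := by push_cast; ring

theorem card_inn_le {m : ℤ} (hm : 0 ≤ m) : ((inn d m).card : ℝ) ≤ (2 * (m : ℝ)) ^ d := by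
  refine le_trans ?_ (card_qi_le hm)
  exact_mod_cast card_le_card (erase_subset _ _)

end Pool.Agent.Lib.MP_562b47_mp.GD
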