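import Pool.Agent.Lib.MP_562b47_mp.GD.Sh

/-!
# GD-SolA: the exact solution, equations  (`BG/SolA.lean` is the case `d = 2`)

Write `|x_j| = b i_j + r_j`, `0 ≤ r_j < b` (`rr`, `lv`; `abs` and `Int.emod`, `Int.ediv`). One
coordinate at a time: a useful private lemma is, for `n : ℤ` not divisible by `b` and `n + 1` not
divisible by `b`: `|n|/b = |n+1|/b` and `|n+1| % b = |n| % b ± 1` (sign of `n`); this also covers passing
through `0`, because `0` is divisible by `b`. Products and sums over the coordinates: `sh x i t` changes only the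
coordinate `i` (`sh_same`, `sh_ne`), split off the factor / summand `i` (`Fintype.prod_eq_mul_prod_compl`,
`Fintype.sum_eq_add_sum_compl`, or `Finset.mul_prod_erase`, `Finset.add_sum_erase`).

`ww_node`: some `r_i = 0`, and `p = 0` outside the cell.
`ww_cell`: `x` not a node. If the neighbour `y = sh x i t` of `x` is not a node it lies in the same cell (same
signs, same `i_j`), `rr y = sh (rr x) i (± t)` (reflected if the sign of `x_i` is negative), and
`ww y = (same sign)(same power) p (rr y)`. If `y` is a node, `ww y = 0` and the corresponding neighbour of `rr x` has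
the coordinate `0` or `b`, so `p` vanishes there too (`out`). So `nbs ww x = (sign)(power) nbs p (rr x)` (for every `i`
the two terms are the same or exchanged) and `Ve x = nbs p (rr x) / p (rr x)`, `p (rr x) ≠ 0`.
`ww_cross`: `x_i = b j`. If another coordinate is divisible by `b`, both sides are `0`. `j = 0`:
`sign (1) = - sign (-1)`. `j > 0`: `|x_i - 1| = b (j-1) + (b-1)`, `|x_i + 1| = b j + 1`:
`(-z)^{j-1+..} p (.., b-1, ..) = (-z)^{j-1+..} z p (.., 1, ..) = - (-z)^{j+..} p (.., 1, ..)` by `side`. `j < 0`: the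
same with left and right exchanged.
`nbs_node`: `b ∣ x_i` for some `i`; the neighbours `sh x j t`, `j ≠ i`, are nodes; the two others cancel (`ww_cross`).
-/

open Finset

namespace Pool.Agent.Lib.MP_562b47_mp.GD

variable {d : ℕ} {b : ℤ} {z : ℝ}

private theorem sola_dm {b a q r : ℤ} (hb : 0 < b) (h : a = b * q + r) (h0 : 0 ≤ r)
    (h1 : r < b) : a / b = q ∧ a % b = r :=
  (Int.ediv_emod_unique hb).2 ⟨by linarith, h0, h1⟩

/-- sign and power in one coordinate -/
private noncomputable def sg (b : ℤ) (z : ℝ) (n : ℤ) : ℝ :=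
  ((n.sign : ℤ) : ℝ) * (-z) ^ (|n| / b).toNat

/-- one-dimensional solution with profile `f` -/
private noncomputable def hh (b : ℤ) (z : ℝ) (f : ℤ → ℝ) (n : ℤ) : ℝ :=
  sg b z n * f (|n| % b)

private theorem sg_neg (b : ℤ) (z : ℝ) (n : ℤ) : sg b z (-n) = - sg b z n := by
  unfold sg
  rw [Int.sign_neg, abs_neg]
  push_cast
  ring

private theorem hh_neg (b : ℤ) (z : ℝ) (f : ℤ → ℝ) (n : ℤ) : hh b z f (-n) = - hh b z f n := by
  unfold hh
  rw [sg_neg, abs_neg]
  ring

private theorem hh_pos {b : ℤ} {z : ℝ} {f : ℤ → ℝ} {n i r : ℤ} (hb : 3 ≤ b) (hn : 0 < n)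
    (h : n = b * i + r) (h0 : 0 ≤ r) (h1 : r < b) : hh b z f n = (-z) ^ i.toNat * f r := by
  obtain ⟨e1, e2⟩ := sola_dm (by omega) h h0 h1
  unfold hh sg
  rw [abs_of_pos hn, e1, e2, Int.sign_eq_one_of_pos hn]
  push_cast
  ring

private theorem hh_mod {b : ℤ} {z : ℝ} {f : ℤ → ℝ} {n : ℤ} (f0 : f 0 = 0) (h : b ∣ n) :
    hh b z f n = 0 := by
  unfold hh
  rw [Int.emod_eq_zero_of_dvd ((dvd_abs b n).2 h), f0, mul_zero]

private theorem step_pos {b : ℤ} {z : ℝ} {f : ℤ → ℝ} (hb : 3 ≤ b) (f0 : f 0 = 0) (fb : f b = 0)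
    {n : ℤ} (hn : ¬ b ∣ n) (hpos : 0 < n) :
    hh b z f (n + 1) + hh b z f (n - 1) =
      sg b z n * (f (|n| % b + 1) + f (|n| % b - 1)) := by
  have hb0 : 0 < b := by omega
  obtain ⟨i, hi⟩ : ∃ i, i = n / b := ⟨_, rfl⟩
  obtain ⟨r, hr⟩ : ∃ r, r = n % b := ⟨_, rfl⟩
  have hdecomp : n = b * i + r := by
    rw [hi, hr]
    exact (Int.mul_ediv_add_emod n b).symm
  have hr0 : 0 ≤ r := by rw [hr]; exact Int.emod_nonneg _ (by omega)
  have hr1 : r < b := by rw [hr]; exact Int.emod_lt_of_pos _ hb0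
  have hrne : r ≠ 0 := by
    intro h0
    apply hn
    exact Int.dvd_of_emod_eq_zero (by rw [← hr, h0])
  have hsg : sg b z n = (-z) ^ i.toNat := by
    unfold sg
    rw [abs_of_pos hpos, ← hi, Int.sign_eq_one_of_pos hpos]
    push_cast
    ring
  have hmod : |n| % b = r := by rw [abs_of_pos hpos, ← hr]
  have e1 : hh b z f (n + 1) = (-z) ^ i.toNat * f (r + 1) := by
    by_cases h : r + 1 < b
    · exact hh_pos hb (by omega) (by rw [hdecomp]; ring) (by omega) h
    · have h2 : r + 1 = b := by omega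
      rw [h2, fb, mul_zero]
      apply hh_mod f0
      refine ⟨i + 1, ?_⟩
      have h3 : b * (i + 1) = b * i + b := by ring
      rw [h3]
      omega
  have e2 : hh b z f (n - 1) = (-z) ^ i.toNat * f (r - 1) := by
    by_cases h : r = 1
    · rw [h, sub_self, f0, mul_zero]
      apply hh_mod f0
      refine ⟨i, ?_⟩
      omega
    · have hn1 : 0 < n - 1 := by
        have h2 : 0 ≤ i := by rw [hi]; exact Int.ediv_nonneg hpos.le hb0.le
        have h3 : 0 ≤ b * i := mul_nonneg hb0.le h2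
        omega
      exact hh_pos hb hn1 (by rw [hdecomp]; ring) (by omega) (by omega)
  rw [e1, e2, hsg, hmod]
  ring

private theorem step {b : ℤ} {z : ℝ} {f : ℤ → ℝ} (hb : 3 ≤ b) (f0 : f 0 = 0) (fb : f b = 0)
    {n : ℤ} (hn : ¬ b ∣ n) :
    hh b z f (n + 1) + hh b z f (n - 1) =
      sg b z n * (f (|n| % b + 1) + f (|n| % b - 1)) := by
  rcases lt_trichotomy n 0 with h | h | h
  · have h1 := step_pos (z := z) hb f0 fb (n := -n) (by rwa [dvd_neg]) (by omega)
    have e1 : -n + 1 = -(n - 1) := by ring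
    have e2 : -n - 1 = -(n + 1) := by ring
    rw [e1, e2, hh_neg, hh_neg, sg_neg, abs_neg] at h1
    linarith
  · exact absurd ⟨0, by rw [h, mul_zero]⟩ hn
  · exact step_pos hb f0 fb hn h

private theorem cross_pos {b : ℤ} {z : ℝ} {f : ℤ → ℝ} (hb : 3 ≤ b)
    (fs : f (b - 1) = z * f 1) {n : ℤ} (hn : b ∣ n) (hpos : 0 ≤ n) :
    hh b z f (n + 1) = - hh b z f (n - 1) := by
  have hb0 : 0 < b := by omega
  obtain ⟨i, hi⟩ := hn
  rcases hpos.eq_or_lt with h | h
  · have e1 : n - 1 = -(n + 1) := by omega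
    rw [e1, hh_neg, neg_neg]
  · have hi1 : 1 ≤ i := by
      by_contra hc
      have h2 : i ≤ 0 := by omega
      have h3 : b * i ≤ 0 := mul_nonpos_of_nonneg_of_nonpos hb0.le h2
      omega
    have h4 : b ≤ n := by
      rw [hi]
      nlinarith
    have e1 : hh b z f (n + 1) = (-z) ^ i.toNat * f 1 :=
      hh_pos hb (by omega) (by rw [hi]) (by omega) (by omega)
    have e2 : hh b z f (n - 1) = (-z) ^ (i - 1).toNat * f (b - 1) :=
      hh_pos hb (by omega) (by rw [hi]; ring) (by omega) (by omega)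
    have e3 : i.toNat = (i - 1).toNat + 1 := by omega
    rw [e1, e2, fs, e3, pow_succ]
    ring

private theorem cross {b : ℤ} {z : ℝ} {f : ℤ → ℝ} (hb : 3 ≤ b)
    (fs : f (b - 1) = z * f 1) {n : ℤ} (hn : b ∣ n) :
    hh b z f (n + 1) = - hh b z f (n - 1) := by
  rcases le_total 0 n with h | h
  · exact cross_pos hb fs hn h
  · have h1 := cross_pos (z := z) hb fs (n := -n) (by rwa [dvd_neg]) (by omega)
    have e1 : -n + 1 = -(n - 1) := by ring
    have e2 : -n - 1 = -(n + 1) := by ring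
    rw [e1, e2, hh_neg, hh_neg] at h1
    linarith

private theorem ww_sg (p : (Fin d → ℤ) → ℝ) (x : Fin d → ℤ) :
    ww b z p x = (∏ j, sg b z (x j)) * p (rr b x) := by
  unfold ww sg lv
  rw [Finset.prod_mul_distrib, Finset.prod_pow_eq_pow_sum]

private theorem rr_sh (x : Fin d → ℤ) (i : Fin d) (t : ℤ) :
    rr b (sh x i t) = Function.update (rr b x) i (|x i + t| % b) := by
  funext j
  by_cases h : j = i
  · subst h
    rw [Function.update_self]
    unfold rr
    rw [sh_same]
  · rw [Function.update_of_ne h]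
    unfold rr
    rw [sh_ne x h]

private theorem ww_h (p : (Fin d → ℤ) → ℝ) (x : Fin d → ℤ) (i : Fin d) (t : ℤ) :
    ww b z p (sh x i t) = (∏ j ∈ univ.erase i, sg b z (x j)) *
      hh b z (fun r => p (Function.update (rr b x) i r)) (x i + t) := by
  rw [ww_sg, ← Finset.mul_prod_erase univ _ (mem_univ i), sh_same, rr_sh]
  have h : ∏ j ∈ univ.erase i, sg b z (sh x i t j) = ∏ j ∈ univ.erase i, sg b z (x j) :=
    Finset.prod_congr rfl fun j hj => by rw [sh_ne x (Finset.ne_of_mem_erase hj)]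
  rw [h]
  unfold hh
  ring

private theorem p_out0 (P : Prof d b z) (y : Fin d → ℤ) (i : Fin d) :
    P.p (Function.update y i 0) = 0 := by
  apply P.out
  rw [mem_cl]
  intro h
  have h1 := (h i).1
  rw [Function.update_self] at h1
  omega

private theorem p_outb (P : Prof d b z) (y : Fin d → ℤ) (i : Fin d) :
    P.p (Function.update y i b) = 0 := by
  apply P.out
  rw [mem_cl]
  intro h
  have h1 := (h i).2
  rw [Function.update_self] at h1
  omega

theorem rr_mem (hb : 3 ≤ b) {x : Fin d → ℤ} (hx : ¬ node b x) : rr b x ∈ cl d b := by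
  unfold node at hx
  push Not at hx
  rw [mem_cl]
  intro i
  have h0 : 0 ≤ |x i| % b := Int.emod_nonneg _ (by omega)
  have h1 : |x i| % b < b := Int.emod_lt_of_pos _ (by omega)
  have h2 : |x i| % b ≠ 0 := by
    intro h3
    exact hx i ((dvd_abs b (x i)).1 (Int.dvd_of_emod_eq_zero h3))
  unfold rr
  omega

theorem ww_node (hb : 3 ≤ b) (P : Prof d b z) {x : Fin d → ℤ} (hx : node b x) :
    ww b z P.p x = 0 := by
  obtain ⟨i, hi⟩ := hx
  have h1 : rr b x = Function.update (rr b x) i 0 := by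
    funext j
    by_cases h : j = i
    · subst h
      rw [Function.update_self]
      exact Int.emod_eq_zero_of_dvd ((dvd_abs b (x j)).2 hi)
    · rw [Function.update_of_ne h]
  rw [ww_sg, h1, p_out0, mul_zero]

theorem ww_ne (hb : 3 ≤ b) (hz : 0 < z) (P : Prof d b z) {x : Fin d → ℤ} (hx : ¬ node b x) :
    ww b z P.p x ≠ 0 := by
  have hm := rr_mem hb hx
  unfold node at hx
  push Not at hx
  have key : ∀ n : ℤ, ¬ b ∣ n → sg b z n ≠ 0 := by
    intro n hn
    have h0 : n ≠ 0 := by
      rintro rfl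
      exact hn (dvd_zero b)
    unfold sg
    refine mul_ne_zero ?_ (pow_ne_zero _ (neg_ne_zero.2 hz.ne'))
    have h1 : n.sign ≠ 0 := fun h => h0 (Int.sign_eq_zero_iff_zero.1 h)
    exact_mod_cast h1
  rw [ww_sg]
  exact mul_ne_zero (Finset.prod_ne_zero_iff.2 fun i _ => key _ (hx i)) (P.ne _ hm)

theorem ww_cell (hb : 3 ≤ b) (hz : 0 < z) (P : Prof d b z) {x : Fin d → ℤ}
    (hx : ¬ node b x) : Ve b P.p x * ww b z P.p x = nbs (ww b z P.p) x := by
  have hm := rr_mem hb hx
  have hne := P.ne _ hm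
  unfold node at hx
  push Not at hx
  have h3 : nbs (ww b z P.p) x = (∏ j, sg b z (x j)) * nbs P.p (rr b x) := by
    unfold nbs
    rw [Finset.mul_sum]
    refine Finset.sum_congr rfl fun i _ => ?_
    rw [ww_h, ww_h, ← mul_add, ← sub_eq_add_neg,
      step (f := fun r => P.p (Function.update (rr b x) i r)) hb (p_out0 P _ i)
        (p_outb P _ i) (hx i), ← Finset.mul_prod_erase univ _ (mem_univ i)]
    have e1 : Function.update (rr b x) i (|x i| % b + 1) = sh (rr b x) i 1 := rfl
    have e2 : Function.update (rr b x) i (|x i| % b - 1) = sh (rr b x) i (-1) := rfl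
    simp only [e1, e2]
    ring
  rw [h3, ww_sg]
  unfold Ve Vp
  field_simp

theorem ww_cross (hb : 3 ≤ b) (P : Prof d b z) {x : Fin d → ℤ} {i : Fin d} (hx : b ∣ x i) :
    ww b z P.p (sh x i 1) = - ww b z P.p (sh x i (-1)) := by
  rw [ww_h, ww_h, ← sub_eq_add_neg,
    cross (f := fun r => P.p (Function.update (rr b x) i r)) hb (P.side i _) hx]
  ring

theorem nbs_node (hb : 3 ≤ b) (P : Prof d b z) {x : Fin d → ℤ} (hx : node b x) :
    nbs (ww b z P.p) x = 0 := by
  obtain ⟨i, hi⟩ := hx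
  unfold nbs
  refine Finset.sum_eq_zero fun j _ => ?_
  by_cases h : j = i
  · subst h
    rw [ww_cross hb P hi]
    ring
  · have h1 : ∀ t, ww b z P.p (sh x j t) = 0 := fun t =>
      ww_node hb P ⟨i, by rw [sh_ne x (Ne.symm h)]; exact hi⟩
    rw [h1, h1, add_zero]

end Pool.Agent.Lib.MP_562b47_mp.GD
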