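import Pool.Agent.Lib.MP_562b47_mp.GD.SolA

/-!
# GD-SolB: size of the exact solution  (`BG/SolB.lean` is the case `d = 2`)

`lower`: `pm := min |p|` over the cell (finite; nonempty if there is a non-node, take `pm = 1` otherwise; `p ≠ 0`);
for `|x_i| < b N` for all `i` the level is `∑ i |x_i|/b ≤ d (N-1)`, and `0 < z < 1`, so `z ^ lv ≥ z ^ (d N)`.
`upper`: `pM := 1 + max |p|`; `z ^ lv ≤ z ^ (|x_i|/b)`, and `|x_i| ≥ b N - 1` gives `|x_i|/b ≥ N - 1`.
`port`: `x = update 1 i (b N - 1)`: `|x_i| = b (N-1) + (b-1)`, `lv = N - 1` (`1 / b = 0` for the other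
coordinates), `|ww| = z^(N-1) |p (update 1 i (b-1))| = z^N |p 1|` (`side` with `y = 1`).
`centre`: `ww 1 = p 1`.
-/

open Finset

namespace Pool.Agent.Lib.MP_562b47_mp.GD

variable {d : ℕ} {b : ℤ} {z : ℝ}

private theorem abs_prod_sign_le (x : Fin d → ℤ) : |∏ i, (((x i).sign : ℤ) : ℝ)| ≤ 1 := by
  rw [Finset.abs_prod]
  refine Finset.prod_le_one (fun i _ => abs_nonneg _) fun i _ => ?_
  rcases lt_trichotomy (x i) 0 with h | h | h
  · rw [Int.sign_eq_neg_one_of_neg h]; simp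
  · rw [h]; simp
  · rw [Int.sign_eq_one_of_pos h]; simp

private theorem abs_prod_sign_eq {x : Fin d → ℤ} (hx : ∀ i, x i ≠ 0) :
    |∏ i, (((x i).sign : ℤ) : ℝ)| = 1 := by
  rw [Finset.abs_prod]
  refine Finset.prod_eq_one fun i _ => ?_
  rcases lt_or_gt_of_ne (hx i) with h | h
  · rw [Int.sign_eq_neg_one_of_neg h]; simp
  · rw [Int.sign_eq_one_of_pos h]; simp

private theorem abs_ww (hz : 0 < z) (p : (Fin d → ℤ) → ℝ) (x : Fin d → ℤ) :
    |ww b z p x| = |∏ i, (((x i).sign : ℤ) : ℝ)| * z ^ lv b x * |p (rr b x)| := by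
  unfold ww
  rw [abs_mul, abs_mul, abs_pow, abs_neg, abs_of_pos hz]

theorem ww_lower (hb : 3 ≤ b) (hz : 0 < z) (hz1 : z < 1) (P : Prof d b z) :
    ∃ pm : ℝ, 0 < pm ∧ ∀ N : ℕ, 1 ≤ N → ∀ x : Fin d → ℤ, ¬ node b x →
      (∀ i, |x i| < b * N) → pm * z ^ (d * N) ≤ |ww b z P.p x| := by
  have hpm : ∃ pm : ℝ, 0 < pm ∧ ∀ y ∈ cl d b, pm ≤ |P.p y| := by
    rcases (cl d b).eq_empty_or_nonempty with h | h
    · exact ⟨1, one_pos, fun y hy => by rw [h] at hy; exact absurd hy (notMem_empty y)⟩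
    · obtain ⟨y0, hy0, hmin⟩ := (cl d b).exists_min_image (fun y => |P.p y|) h
      exact ⟨|P.p y0|, abs_pos.mpr (P.ne y0 hy0), hmin⟩
  obtain ⟨pm, hpm0, hpm1⟩ := hpm
  refine ⟨pm, hpm0, fun N _ x hx hN => ?_⟩
  have hx0 : ∀ i, x i ≠ 0 := fun i h => hx ⟨i, h ▸ dvd_zero b⟩
  rw [abs_ww hz, abs_prod_sign_eq hx0, one_mul, mul_comm pm]
  have hlv : lv b x ≤ d * N := by
    unfold lv
    have h1 : ∀ i ∈ (univ : Finset (Fin d)), (|x i| / b).toNat ≤ N := by
      intro i _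
      have h2 : |x i| / b < N := by
        rw [Int.ediv_lt_iff_lt_mul (by omega)]
        have := hN i
        linarith [mul_comm b (N : ℤ)]
      omega
    calc ∑ i, (|x i| / b).toNat ≤ ∑ _i : Fin d, N := Finset.sum_le_sum h1
      _ = d * N := by simp
  exact mul_le_mul (pow_le_pow_of_le_one hz.le hz1.le hlv) (hpm1 _ (rr_mem hb hx)) hpm0.le
    (pow_nonneg hz.le _)

theorem ww_upper (hb : 3 ≤ b) (hz : 0 < z) (hz1 : z < 1) (P : Prof d b z) :
    ∃ pM : ℝ, 1 ≤ pM ∧ (∀ x, |ww b z P.p x| ≤ pM) ∧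
      ∀ N : ℕ, 1 ≤ N → ∀ x : Fin d → ℤ, (∃ i, b * N - 1 ≤ |x i|) →
        |ww b z P.p x| ≤ pM * z ^ (N - 1) := by
  have hpM : ∃ pM : ℝ, 1 ≤ pM ∧ ∀ y, |P.p y| ≤ pM := by
    have h0 : (0 : ℝ) ≤ ∑ y ∈ cl d b, |P.p y| := Finset.sum_nonneg fun y _ => abs_nonneg _
    refine ⟨1 + ∑ y ∈ cl d b, |P.p y|, by linarith, fun y => ?_⟩
    by_cases hy : y ∈ cl d b
    · have : |P.p y| ≤ ∑ y ∈ cl d b, |P.p y| :=
        Finset.single_le_sum (f := fun y => |P.p y|) (fun y _ => abs_nonneg _) hy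
      linarith
    · rw [P.out y hy, abs_zero]
      linarith
  obtain ⟨pM, hpM1, hpM2⟩ := hpM
  have hpM0 : 0 ≤ pM := by linarith
  have key : ∀ x : Fin d → ℤ, |ww b z P.p x| ≤ z ^ lv b x * pM := by
    intro x
    rw [abs_ww hz]
    have hzl : 0 ≤ z ^ lv b x := pow_nonneg hz.le _
    have h1 : |∏ i, (((x i).sign : ℤ) : ℝ)| * z ^ lv b x ≤ z ^ lv b x := by
      have := mul_le_mul_of_nonneg_right (abs_prod_sign_le x) hzl
      rwa [one_mul] at this
    exact mul_le_mul h1 (hpM2 _) (abs_nonneg _) hzl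
  refine ⟨pM, hpM1, fun x => ?_, fun N hN x hx => ?_⟩
  · refine le_trans (key x) ?_
    have := mul_le_mul_of_nonneg_right (pow_le_one₀ hz.le hz1.le (n := lv b x)) hpM0
    rwa [one_mul] at this
  · refine le_trans (key x) ?_
    rw [mul_comm]
    refine mul_le_mul_of_nonneg_left ?_ hpM0
    refine pow_le_pow_of_le_one hz.le hz1.le ?_
    obtain ⟨i, hi⟩ := hx
    have h1 : (N : ℤ) - 1 ≤ |x i| / b := by
      rw [Int.le_ediv_iff_mul_le (by omega)]
      have : ((N : ℤ) - 1) * b = b * N - b := by ring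
      rw [this]
      omega
    have h2 : (|x i| / b).toNat ≤ lv b x := by
      unfold lv
      exact Finset.single_le_sum (f := fun i => (|x i| / b).toNat) (fun _ _ => Nat.zero_le _)
        (mem_univ i)
    omega

private theorem one_ediv' (hb : 3 ≤ b) : (|(1 : ℤ)| / b).toNat = 0 := by
  rw [abs_one, Int.ediv_eq_zero_of_lt (by omega) (by omega)]
  rfl

theorem ww_port (hb : 3 ≤ b) (hz : 0 < z) (P : Prof d b z) (N : ℕ) (hN : 1 ≤ N) (i : Fin d) :
    |ww b z P.p (Function.update 1 i (b * N - 1))| = z ^ N * |P.p 1| := by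
  have hbN : b ≤ b * N := by
    have : (1 : ℤ) ≤ N := by exact_mod_cast hN
    nlinarith
  have hpos : (0 : ℤ) < b * N - 1 := by omega
  set x : Fin d → ℤ := Function.update 1 i (b * N - 1) with hxd
  have hxi : x i = b * N - 1 := by rw [hxd]; simp
  have hxj : ∀ j, j ≠ i → x j = 1 := fun j hj => by
    rw [hxd, Function.update_of_ne hj]; rfl
  have hx0 : ∀ j, x j ≠ 0 := by
    intro j
    by_cases hj : j = i
    · rw [hj, hxi]; omega
    · rw [hxj j hj]; exact one_ne_zero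
  have habs : |x i| = b * N - 1 := by rw [hxi]; exact abs_of_pos hpos
  have hdec : b * (N : ℤ) - 1 = (b - 1) + b * ((N : ℤ) - 1) := by ring
  have hdiv : |x i| / b = (N : ℤ) - 1 := by
    rw [habs, hdec, Int.add_mul_ediv_left _ _ (by omega : b ≠ 0),
      Int.ediv_eq_zero_of_lt (by omega) (by omega)]
    ring
  have hmod : |x i| % b = b - 1 := by
    rw [habs, hdec, Int.add_mul_emod_self_left, Int.emod_eq_of_lt (by omega) (by omega)]
  have hlv : lv b x = N - 1 := by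
    unfold lv
    rw [Finset.sum_eq_single i]
    · rw [hdiv]; omega
    · intro j _ hj
      rw [hxj j hj]
      exact one_ediv' hb
    · intro h
      exact absurd (mem_univ i) h
  have hrr : rr b x = Function.update (1 : Fin d → ℤ) i (b - 1) := by
    funext j
    unfold rr
    by_cases hj : j = i
    · subst hj
      rw [hmod]
      simp
    · rw [hxj j hj, Function.update_of_ne hj, abs_one,
        Int.emod_eq_of_lt (by omega) (by omega)]
      rfl
  have hside : P.p (Function.update 1 i (b - 1)) = z * P.p 1 := by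
    have h1 : Function.update (1 : Fin d → ℤ) i 1 = 1 := by
      funext j
      by_cases hj : j = i
      · subst hj; simp
      · rw [Function.update_of_ne hj]
    rw [P.side i 1, h1]
  rw [abs_ww hz, abs_prod_sign_eq hx0, hlv, hrr, hside, abs_mul, abs_of_pos hz, one_mul]
  obtain ⟨M, rfl⟩ : ∃ M, N = M + 1 := ⟨N - 1, by omega⟩
  rw [Nat.add_sub_cancel, pow_succ]
  ring

theorem ww_centre (hb : 3 ≤ b) (P : Prof d b z) : ww b z P.p 1 = P.p 1 := by
  have hlv : lv b (1 : Fin d → ℤ) = 0 := by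
    unfold lv
    exact Finset.sum_eq_zero fun j _ => one_ediv' hb
  have hrr : rr b (1 : Fin d → ℤ) = 1 := by
    funext j
    unfold rr
    simp only [Pi.one_apply, abs_one]
    exact Int.emod_eq_of_lt (by omega) (by omega)
  unfold ww
  rw [hlv, hrr]
  simp

end Pool.Agent.Lib.MP_562b47_mp.GD
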